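import Pool.Agent.Q100.CQ.Main

set_option autoImplicit false
set_option linter.unusedSectionVars false

/-!
# Normal subgroups of index `p`: the posets
-/

open scoped Classical BigOperators
open Pool.Agent.Helper884.IC Pool.Agent.Y63.KR
open Pool.Agent.Q100.IV

noncomputable section

namespace Pool.Agent.Q100.PX

/-- transport along an order embedding of a finite set -/
theorem alt_image_on {α β : Type} {r : α → α → Prop} {r' : β → β → Prop} (φ : α → β) (S : Finset α)
    (hφ : Set.InjOn φ (S : Set α)) (hr : ∀ a ∈ S, ∀ b ∈ S, (r a b ↔ r' (φ a) (φ b))) :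
    alt r' (S.image φ) = alt r S := by
  have h1 := alt_image (r := fun a b : {a // a ∈ S} => r a.1 b.1) (r' := r) Subtype.val
    Subtype.val_injective (fun a b => Iff.rfl) S.attach
  have h2 := alt_image (r := fun a b : {a // a ∈ S} => r a.1 b.1) (r' := r') (fun a => φ a.1)
    (fun a b h => Subtype.ext (hφ a.2 b.2 h)) (fun a b => hr a.1 a.2 b.1 b.2) S.attach
  rw [Finset.attach_image_val] at h1
  rw [h1, ← h2]
  congr 1
  ext b
  simp

variable {E : Type} [Group E] [Finite E] {p : ℕ} [hp : Fact p.Prime] {G : Subgroup E} [hG : G.Normal]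

/-- removal of the subgroups meeting `G` trivially -/
lemma alt_minimal (K : Set E) :
    alt (· ≤ ·) (SS p K ⊤ ⊥) = alt (· ≤ ·) (SS p K G ⊥) -
      ∑ Q ∈ (SS p K ⊤ ⊥).filter (fun Q => Q ⊓ G = ⊥), alt (· ≤ ·) (SS p K ⊤ Q) := by
  have h1 : alt (· ≤ ·) ((SS p K (⊤ : Subgroup E) ⊥).filter (fun R => ¬ R ⊓ G = ⊥)) =
      alt (· ≤ ·) (SS p K G ⊥) := by
    refine retract_down ?_ (fun R => R ⊓ G) ?_ ?_ ?_ ?_
    · intro R hR
      rw [mem_SS] at hR
      rw [Finset.mem_filter, mem_SS]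
      refine ⟨⟨hR.1, hR.2.1, le_top, hR.2.2.2⟩, ?_⟩
      rw [inf_eq_left.mpr hR.2.2.1]
      exact hR.2.1.ne'
    · intro R hR
      rw [Finset.mem_filter, mem_SS] at hR
      rw [mem_SS]
      refine ⟨hR.1.1.to_le inf_le_left, bot_lt_iff_ne_bot.mpr hR.2, inf_le_right, ?_⟩
      intro x hx
      rw [conjSub_inf, hR.1.2.2.2 x hx, conj_normal]
    · intro R _
      exact inf_le_left
    · intro R _ R' _ h
      exact inf_le_inf_right _ h
    · intro R hR
      rw [mem_SS] at hR
      exact inf_eq_left.mpr hR.2.2.1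
  have h2 := alt_least po_le (SS p K (⊤ : Subgroup E) ⊥)
  have h3 := alt_least po_le ((SS p K (⊤ : Subgroup E) ⊥).filter (fun R => ¬ R ⊓ G = ⊥))
  have h4 : ∀ R ∈ (SS p K (⊤ : Subgroup E) ⊥).filter (fun R => ¬ R ⊓ G = ⊥),
      alt (· ≤ ·) (up (· ≤ ·) ((SS p K (⊤ : Subgroup E) ⊥).filter (fun R => ¬ R ⊓ G = ⊥)) R) =
      alt (· ≤ ·) (up (· ≤ ·) (SS p K (⊤ : Subgroup E) ⊥) R) := by
    intro R hR
    congr 1
    ext R'
    rw [mem_up, mem_up, Finset.mem_filter]
    constructor
    · rintro ⟨h, h'⟩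
      exact ⟨h.1, h'⟩
    · rintro ⟨h, h', h''⟩
      refine ⟨⟨h, fun h5 => (Finset.mem_filter.mp hR).2 ?_⟩, h', h''⟩
      rw [eq_bot_iff, ← h5]
      exact inf_le_inf_right _ h'
  rw [Finset.sum_congr rfl h4] at h3
  have h5 : ∀ Q ∈ (SS p K (⊤ : Subgroup E) ⊥).filter (fun Q => Q ⊓ G = ⊥),
      alt (· ≤ ·) (SS p K ⊤ Q) = alt (· ≤ ·) (up (· ≤ ·) (SS p K (⊤ : Subgroup E) ⊥) Q) := by
    intro Q hQ
    rw [up_SS (Finset.mem_filter.mp hQ).1]
  rw [Finset.sum_congr rfl h5, ← h1, h3, h2,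
    ← Finset.sum_filter_add_sum_filter_not (SS p K (⊤ : Subgroup E) ⊥) (fun R => R ⊓ G = ⊥)]
  ring

/-- restriction to the centraliser of a `p`-element commuting with `K` -/
theorem alt_cent {K : Set E} {u : E} (hu : ∃ k : ℕ, u ^ p ^ k = 1) (hK : ∀ x ∈ K, u * x = x * u) :
    alt (· ≤ ·) (SS p (insert u K) G ⊥) = alt (· ≤ ·) (SS p K (CG G u) ⊥) := by
  refine retract_down ?_ (fun R => R ⊓ Subgroup.centralizer ({u} : Set E)) ?_ ?_ ?_ ?_
  · intro R hR
    rw [mem_SS] at hR ⊢
    refine ⟨hR.1, hR.2.1, hR.2.2.1.trans inf_le_left, ?_⟩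
    rintro w (rfl | hw)
    · exact conj_eq_self fun r hr => (mem_CG.mp (hR.2.2.1 hr)).2
    · exact hR.2.2.2 w hw
  · intro R hR
    rw [mem_SS] at hR ⊢
    have huR : conjSub u R = R := hR.2.2.2 u (Set.mem_insert _ _)
    have hc : ∀ w : E, u * w = w * u → conjSub w (Subgroup.centralizer ({u} : Set E)) =
        Subgroup.centralizer ({u} : Set E) := fun w hw => conjSub_eq_iff.mpr
      (Subgroup.le_normalizer (Subgroup.mem_centralizer_singleton_iff.mpr hw.symm))
    refine ⟨hR.1.to_le inf_le_left, ?_, inf_le_inf_right _ hR.2.2.1, ?_⟩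
    · obtain ⟨r, hr, hr1, hru⟩ := exists_fixed hR.1 hR.2.1.ne' hu huR
      rw [bot_lt_iff_ne_bot]
      intro h
      apply hr1
      rw [← Subgroup.mem_bot, ← h]
      exact ⟨hr, (Subgroup.mem_centralizer_singleton_iff).mpr hru.symm⟩
    · intro w hw
      rw [conjSub_inf, hR.2.2.2 w (Set.mem_insert_of_mem _ hw), hc _ (hK w hw)]
  · intro R _
    exact inf_le_left
  · intro R _ R' _ h
    exact inf_le_inf_right _ h
  · intro R hR
    rw [mem_SS] at hR
    exact inf_eq_left.mpr (hR.2.2.1.trans inf_le_right)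

/-- the multiplicities of an element outside `G` -/
lemma exists_pow (hi : G.index = p) {u : E} (hu : u ∉ G) (x : E) : ∃ k : ℤ, x * (u ^ k)⁻¹ ∈ G := by
  have h1 : (u : E ⧸ G) ≠ 1 := fun h => hu ((QuotientGroup.eq_one_iff u).mp h)
  have h2 := zpowers_eq_top_of_prime_card (G := E ⧸ G) (p := p) hi h1
  have h3 : (x : E ⧸ G) ∈ Subgroup.zpowers (u : E ⧸ G) := by rw [h2]; exact Subgroup.mem_top _
  obtain ⟨k, hk⟩ := Subgroup.mem_zpowers_iff.mp h3
  refine ⟨k, ?_⟩
  rw [coset_iff, QuotientGroup.mk_zpow, hk]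

lemma comm_mem (hi : G.index = p) (x y : E) : x * y * x⁻¹ * y⁻¹ ∈ G := by
  have hc : IsCyclic (E ⧸ G) := isCyclic_of_prime_card (p := p) hi
  have hcomm : ∀ a b : E ⧸ G, a * b = b * a := fun a b => by
    obtain ⟨g, hg⟩ := hc.exists_generator
    obtain ⟨i, rfl⟩ := Subgroup.mem_zpowers_iff.mp (hg a)
    obtain ⟨j, rfl⟩ := Subgroup.mem_zpowers_iff.mp (hg b)
    rw [← zpow_add, ← zpow_add, add_comm]
  rw [← QuotientGroup.eq_one_iff, QuotientGroup.mk_mul, QuotientGroup.mk_mul,
    QuotientGroup.mk_mul, hcomm (x : E ⧸ G) (y : E ⧸ G), ← QuotientGroup.mk_mul,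
    ← QuotientGroup.mk_mul, ← QuotientGroup.mk_mul]
  have : y * x * x⁻¹ * y⁻¹ = 1 := by group
  rw [this]
  rfl

/-- a `p`-subgroup meeting `G` trivially -/
lemma card_of_inf (hi : G.index = p) {Q : Subgroup E} (hQG : Q ⊓ G = ⊥) (hQ : Q ≠ ⊥) :
    Nat.card Q = p := by
  have h1 : Function.Injective ((QuotientGroup.mk' G).comp Q.subtype) := by
    rw [injective_iff_map_eq_one]
    intro x hx
    have h2 : ((x : E) : E ⧸ G) = 1 := hx
    rw [QuotientGroup.eq_one_iff] at h2
    have h3 : (x : E) ∈ Q ⊓ G := ⟨x.2, h2⟩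
    rw [hQG, Subgroup.mem_bot] at h3
    exact Subtype.ext h3
  have h2 := Subgroup.card_dvd_of_injective _ h1
  have h3 : Nat.card (E ⧸ G) = p := hi
  rw [h3] at h2
  rcases (Nat.dvd_prime hp.out).mp h2 with h4 | h4
  · exact absurd (Subgroup.card_eq_one.mp h4) hQ
  · exact h4

/-- the decomposition of the subgroups containing `u` -/
lemma eq_sup (hi : G.index = p) {u : E} (hu : u ∉ G) {R : Subgroup E} (huR : u ∈ R) :
    R ⊓ G ⊔ Subgroup.zpowers u = R := by
  apply le_antisymm
  · exact sup_le inf_le_left (by rw [Subgroup.zpowers_le]; exact huR)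
  · intro r hr
    obtain ⟨k, hk⟩ := exists_pow hi hu r
    have h1 : r = r * (u ^ k)⁻¹ * u ^ k := by group
    rw [h1]
    refine Subgroup.mul_mem _ (Subgroup.mem_sup_left ⟨?_, hk⟩) (Subgroup.mem_sup_right ?_)
    · exact R.mul_mem hr (R.inv_mem (R.zpow_mem huR k))
    · exact Subgroup.zpow_mem _ (Subgroup.mem_zpowers u) k

/-- **The subgroups above a subgroup of order `p`.** -/
lemma alt_above (hi : G.index = p) {K : Set E} {u : E} (hu : u ∉ G) (ho : orderOf u = p)
    (hK : ∀ x ∈ K, u * x = x * u) :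
    alt (· ≤ ·) (SS p K ⊤ (Subgroup.zpowers u)) = alt (· ≤ ·) (SS p K (CG G u) ⊥) := by
  have hup : ∃ k : ℕ, u ^ p ^ k = 1 := ⟨1, by rw [pow_one, ← ho]; exact pow_orderOf_eq_one u⟩
  rw [← alt_cent hup hK]
  have hZ : IsPGroup p (Subgroup.zpowers u) :=
    IsPGroup.of_card (n := 1) (by rw [Nat.card_zpowers, ho, pow_one])
  have hZG : Subgroup.zpowers u ⊓ G = ⊥ := by
    by_contra h
    have h1 : Nat.card (Subgroup.zpowers u ⊓ G : Subgroup E) ∣ Nat.card (Subgroup.zpowers u) :=
      Subgroup.card_dvd_of_le inf_le_left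
    rw [Nat.card_zpowers, ho] at h1
    rcases (Nat.dvd_prime hp.out).mp h1 with h4 | h4
    · exact h (Subgroup.card_eq_one.mp h4)
    · have h5 : Subgroup.zpowers u ⊓ G = Subgroup.zpowers u := by
        apply Subgroup.eq_of_le_of_card_ge inf_le_left
        rw [h4, Nat.card_zpowers, ho]
      exact hu (inf_eq_left.mp h5 (Subgroup.mem_zpowers u))
  have hsup : ∀ R ∈ SS p K (⊤ : Subgroup E) (Subgroup.zpowers u), u ∈ R := by
    intro R hR
    exact (mem_SS.mp hR).2.1.le (Subgroup.mem_zpowers u)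
  rw [← alt_image_on (r := (· ≤ ·)) (r' := (· ≤ ·)) (fun R : Subgroup E => R ⊓ G)
    (SS p K ⊤ (Subgroup.zpowers u))]
  · congr 1
    ext T
    rw [Finset.mem_image, mem_SS]
    constructor
    · rintro ⟨R, hR, rfl⟩
      have huR := hsup R hR
      rw [mem_SS] at hR
      refine ⟨hR.1.to_le inf_le_left, ?_, inf_le_right, ?_⟩
      · rw [bot_lt_iff_ne_bot]
        intro h
        have h1 := eq_sup hi hu huR
        rw [h, bot_sup_eq] at h1
        exact hR.2.1.ne h1
      · rintro x (rfl | hx)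
        · rw [conjSub_inf, conj_normal (G := G), conjSub_eq_iff.mpr (Subgroup.le_normalizer huR)]
        · rw [conjSub_inf, conj_normal (G := G), hR.2.2.2 x hx]
    · rintro ⟨h1, h2, h3, h4⟩
      have huT : conjSub u T = T := h4 u (Set.mem_insert _ _)
      have hZT : Subgroup.zpowers u ≤ Subgroup.normalizer (T : Set E) := by
        rw [Subgroup.zpowers_le]
        exact conjSub_eq_iff.mp huT
      have hTZ : (T ⊔ Subgroup.zpowers u) ⊓ G = T := by
        apply le_antisymm
        · rintro x ⟨hx, hxG⟩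
          have h5 : x ∈ ((T ⊔ Subgroup.zpowers u : Subgroup E) : Set E) := hx
          rw [Subgroup.coe_mul_of_right_le_normalizer_left _ _ hZT] at h5
          obtain ⟨t, ht, v, hv, rfl⟩ := Set.mem_mul.mp h5
          have h6 : v ∈ Subgroup.zpowers u ⊓ G := by
            refine ⟨hv, ?_⟩
            have h7 := G.mul_mem (G.inv_mem (h3 ht)) hxG
            rwa [inv_mul_cancel_left] at h7
          rw [hZG, Subgroup.mem_bot] at h6
          rw [h6, mul_one]
          exact ht
        · exact le_inf le_sup_left h3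
      refine ⟨T ⊔ Subgroup.zpowers u, ?_, hTZ⟩
      rw [mem_SS]
      refine ⟨?_, ?_, le_top, ?_⟩
      · exact IsPGroup.to_sup_of_normal_left' h1 hZ hZT
      · refine lt_of_le_of_ne le_sup_right fun h => h2.ne' ?_
        rw [← h, hZG] at hTZ
        exact hTZ.symm
      · intro x hx
        rw [conjSub_sup, h4 x (Set.mem_insert_of_mem _ hx)]
        congr 1
        exact conj_eq_self fun r hr => by
          obtain ⟨k, rfl⟩ := Subgroup.mem_zpowers_iff.mp hr
          have : Commute u x := hK x hx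
          exact (this.symm.zpow_right k).eq
  · intro R hR R' hR' h
    have h' : R ⊓ G = R' ⊓ G := h
    rw [← eq_sup hi hu (hsup R hR), ← eq_sup hi hu (hsup R' hR'), h']
  · intro R hR R' hR'
    constructor
    · intro h
      exact inf_le_inf_right _ h
    · intro h
      rw [← eq_sup hi hu (hsup R hR), ← eq_sup hi hu (hsup R' hR')]
      exact sup_le_sup_right h _

/-- **The posets of `E` and of `G`.** -/
theorem alt_index (hi : G.index = p) [Fintype E] (K : Set E) :
    ((p : ℤ) - 1) * alt (· ≤ ·) (SS p K ⊤ ⊥) = ((p : ℤ) - 1) * alt (· ≤ ·) (SS p K G ⊥) -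
      ∑ u ∈ Finset.univ.filter (fun u : E => (u ∉ G ∧ orderOf u = p) ∧ ∀ x ∈ K, u * x = x * u),
        alt (· ≤ ·) (SS p K (CG G u) ⊥) := by
  rw [alt_minimal (G := G) K, mul_sub]
  congr 1
  rw [← Finset.sum_fiberwise_of_maps_to (g := fun u : E => Subgroup.zpowers u)
    (t := (SS p K (⊤ : Subgroup E) ⊥).filter (fun Q => Q ⊓ G = ⊥)), Finset.mul_sum]
  · refine Finset.sum_congr rfl fun Q hQ => ?_
    rw [Finset.mem_filter, mem_SS] at hQ
    have hcard := card_of_inf hi hQ.2 hQ.1.2.1.ne'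
    have h1 : ∀ u ∈ (Finset.univ.filter (fun u : E => (u ∉ G ∧ orderOf u = p) ∧
        ∀ x ∈ K, u * x = x * u)).filter (fun u => Subgroup.zpowers u = Q),
        alt (· ≤ ·) (SS p K (CG G u) ⊥) = alt (· ≤ ·) (SS p K ⊤ Q) := by
      intro u hu
      rw [Finset.mem_filter, Finset.mem_filter] at hu
      rw [← hu.2, alt_above hi hu.1.2.1.1 hu.1.2.1.2 hu.1.2.2]
    rw [Finset.sum_congr rfl h1, Finset.sum_const, nsmul_eq_mul]
    congr 1
    have h2 : (Finset.univ.filter (fun u : E => (u ∉ G ∧ orderOf u = p) ∧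
        ∀ x ∈ K, u * x = x * u)).filter (fun u => Subgroup.zpowers u = Q) =
        (Finset.univ.filter (fun u : E => u ∈ Q)).erase 1 := by
      ext u
      rw [Finset.mem_filter, Finset.mem_filter, Finset.mem_erase, Finset.mem_filter]
      constructor
      · rintro ⟨⟨-, ⟨h3, h4⟩, h5⟩, h6⟩
        refine ⟨?_, Finset.mem_univ _, ?_⟩
        · rintro rfl
          exact h3 G.one_mem
        · rw [← h6]
          exact Subgroup.mem_zpowers u
      · rintro ⟨h3, -, h4⟩
        have h5 : u ∉ G := by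
          intro h5
          have h6 : u ∈ Q ⊓ G := ⟨h4, h5⟩
          rw [hQ.2, Subgroup.mem_bot] at h6
          exact h3 h6
        have h6 : orderOf u = p := by
          have h7 : orderOf (⟨u, h4⟩ : Q) ∣ Nat.card Q := orderOf_dvd_natCard _
          rw [hcard, Subgroup.orderOf_mk] at h7
          rcases (Nat.dvd_prime hp.out).mp h7 with h8 | h8
          · exact absurd (orderOf_eq_one_iff.mp h8) h3
          · exact h8
        refine ⟨⟨Finset.mem_univ _, ⟨h5, h6⟩, ?_⟩, ?_⟩
        · intro x hx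
          have h7 : x * u * x⁻¹ ∈ Q := by
            have h8 := hQ.1.2.2.2 x hx
            rw [← h8, mem_conjSub]
            have : x⁻¹ * (x * u * x⁻¹) * x = u := by group
            rw [this]
            exact h4
          have h8 : x * u * x⁻¹ * u⁻¹ ∈ Q ⊓ G := ⟨Q.mul_mem h7 (Q.inv_mem h4), comm_mem hi x u⟩
          rw [hQ.2, Subgroup.mem_bot] at h8
          calc u * x = (x * u * x⁻¹ * u⁻¹)⁻¹ * (x * u) := by group
            _ = x * u := by rw [h8]; group
        · apply Subgroup.eq_of_le_of_card_ge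
          · rw [Subgroup.zpowers_le]
            exact h4
          · rw [hcard, Nat.card_zpowers, h6]
    have h3 : ((Finset.univ.filter (fun u : E => u ∈ Q)).erase 1).card = p - 1 := by
      rw [Finset.card_erase_of_mem (by simp [Q.one_mem])]
      congr 1
      rw [← hcard, Nat.card_eq_fintype_card, Fintype.card_subtype]
    rw [h2, h3, Nat.cast_sub hp.out.one_lt.le, Nat.cast_one]
  · intro u hu
    rw [Finset.mem_filter] at hu
    rw [Finset.mem_filter, mem_SS]
    have hZ : IsPGroup p (Subgroup.zpowers u) :=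
      IsPGroup.of_card (n := 1) (by rw [Nat.card_zpowers, hu.2.1.2, pow_one])
    refine ⟨⟨hZ, ?_, le_top, ?_⟩, ?_⟩
    · rw [bot_lt_iff_ne_bot, Ne, Subgroup.zpowers_eq_bot]
      rintro rfl
      exact hu.2.1.1 G.one_mem
    · intro x hx
      exact conj_eq_self fun r hr => by
        obtain ⟨k, rfl⟩ := Subgroup.mem_zpowers_iff.mp hr
        have : Commute u x := hu.2.2 x hx
        exact (this.symm.zpow_right k).eq
    · by_contra h
      have h1 : Nat.card (Subgroup.zpowers u ⊓ G : Subgroup E) ∣ Nat.card (Subgroup.zpowers u) :=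
        Subgroup.card_dvd_of_le inf_le_left
      rw [Nat.card_zpowers, hu.2.1.2] at h1
      rcases (Nat.dvd_prime hp.out).mp h1 with h4 | h4
      · exact h (Subgroup.card_eq_one.mp h4)
      · have h5 : Subgroup.zpowers u ⊓ G = Subgroup.zpowers u := by
          apply Subgroup.eq_of_le_of_card_ge inf_le_left
          rw [h4, Nat.card_zpowers, hu.2.1.2]
        exact hu.2.1.1 (inf_eq_left.mp h5 (Subgroup.mem_zpowers u))

end Pool.Agent.Q100.PX
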