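import Pool.Agent.Q100.PX.Zed

set_option autoImplicit false
set_option linter.unusedSectionVars false

/-!
# Normal subgroups of index `p` of a subgroup
-/

open scoped Classical BigOperators
open Pool.Agent.Helper884.IC Pool.Agent.Y63.KR
open Pool.Agent.Y63.AWC hiding DZ
open Pool.Agent.Q100.IV Pool.Agent.Q100.CQ

noncomputable section

namespace Pool.Agent.Q100.PX

variable {p : ℕ} [hp : Fact p.Prime]

lemma conj_map {C D : Type} [Group C] [Group D] (e : C ≃* D) (x : C) (Q : Subgroup C) :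
    conjSub (e x) (Q.map e.toMonoidHom) = (conjSub x Q).map e.toMonoidHom := by
  unfold conjSub
  rw [Subgroup.map_map, Subgroup.map_map]
  congr 1
  ext y
  simp

lemma SS_map {C D : Type} [Group C] [Group D] [Finite C] [Finite D] (e : C ≃* D) {x y : C}
    {Q : Subgroup C} (hQ : Q ∈ SS p ({x, y} : Set C) ⊤ ⊥) :
    Q.map e.toMonoidHom ∈ SS p ({e x, e y} : Set D) ⊤ ⊥ := by
  rw [mem_SS] at hQ ⊢
  refine ⟨hQ.1.map _, ?_, le_top, ?_⟩
  · rw [bot_lt_iff_ne_bot, Ne, Subgroup.map_eq_bot_iff_of_injective _ e.injective]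
    exact hQ.2.1.ne'
  · rintro z (rfl | hz)
    · rw [conj_map, hQ.2.2.2 x (by simp)]
    · have hz' : z = e y := hz
      rw [hz', conj_map, hQ.2.2.2 y (by simp)]

theorem TA_congr {C D : Type} [Group C] [Group D] [Finite C] [Finite D] (e : C ≃* D) :
    TA p C = TA p D := by
  have : Fintype C := Fintype.ofFinite C
  have : Fintype D := Fintype.ofFinite D
  rw [TA_type, TA_type]
  refine Finset.sum_bij (fun q _ => (e q.1, e q.2)) ?_ ?_ ?_ ?_
  · intro q hq
    rw [Finset.mem_filter] at hq ⊢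
    refine ⟨Finset.mem_univ _, ?_⟩
    change e q.2 * e q.1 = e q.1 * e q.2
    rw [← map_mul, hq.2, map_mul]
  · intro q _ q' _ h
    rw [Prod.mk.injEq] at h
    exact Prod.ext (e.injective h.1) (e.injective h.2)
  · intro q hq
    rw [Finset.mem_filter] at hq
    refine ⟨(e.symm q.1, e.symm q.2), ?_, ?_⟩
    · rw [Finset.mem_filter]
      refine ⟨Finset.mem_univ _, ?_⟩
      change e.symm q.2 * e.symm q.1 = e.symm q.1 * e.symm q.2
      rw [← map_mul, hq.2, map_mul]
    · simp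
  · intro q _
    rw [← alt_image (r := fun a b : Subgroup C => a ≤ b) (r' := fun a b : Subgroup D => a ≤ b)
      (fun Q : Subgroup C => Q.map e.toMonoidHom) (Subgroup.map_injective e.injective)
      (fun a b => (Subgroup.map_le_map_iff_of_injective e.injective).symm)]
    congr 1
    ext R
    rw [Finset.mem_image]
    constructor
    · rintro ⟨Q, hQ, rfl⟩
      exact SS_map e hQ
    · intro hR
      refine ⟨R.map e.symm.toMonoidHom, ?_, ?_⟩
      · have h1 := SS_map e.symm hR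
        rwa [e.symm_apply_apply, e.symm_apply_apply] at h1
      · rw [Subgroup.map_map]
        have : e.toMonoidHom.comp e.symm.toMonoidHom = MonoidHom.id D := by
          ext y
          simp
        rw [this, Subgroup.map_id]

/-- `|H|` times the failure of the equality of Knörr and Robinson -/
def FF (p : ℕ) (H : Type) [Group H] : ℤ := (Nat.card H : ℤ) * fl p H

theorem FF_congr {C D : Type} [Group C] [Group D] [Finite C] [Finite D] (e : C ≃* D) :
    FF p C = FF p D := by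
  have h1 : ∀ (H : Type) [Group H], FF p H = TA p H - (Nat.card H : ℤ) * (numDefectZero p H : ℤ) := by
    intro H _
    unfold FF TA fl
    ring
  rw [h1, h1, TA_congr e, Nat.card_congr e.toEquiv, numDefectZero_congr e]

variable {E : Type} [Group E] [Finite E] [Fintype E]

/-- the isomorphism of the centralisers -/
def isoCM {G M : Subgroup E} (hGM : G ≤ M) (u : M) : CG (G.subgroupOf M) u ≃* CG G (u : E) where
  toFun x := ⟨x.1.1, mem_CG.mpr ⟨(mem_CG.mp x.2).1, congrArg Subtype.val (mem_CG.mp x.2).2⟩⟩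
  invFun x := ⟨⟨x.1, hGM (mem_CG.mp x.2).1⟩,
    mem_CG.mpr ⟨(mem_CG.mp x.2).1, Subtype.ext (mem_CG.mp x.2).2⟩⟩
  left_inv _ := rfl
  right_inv _ := rfl
  map_mul' _ _ := rfl

/-- **The formula for a normal subgroup of index `p` of a subgroup.** -/
theorem index_amb {G M : Subgroup E} (hGM : G ≤ M) (hn : ∀ m ∈ M, ∀ g ∈ G, m * g * m⁻¹ ∈ G)
    (hi : G.relIndex M = p) :
    ((p : ℤ) - 1) * FF p M = ((p : ℤ) - 1) * FF p G -
      ∑ u ∈ Finset.univ.filter (fun u : E => (u ∈ M ∧ u ∉ G) ∧ orderOf u = p), FF p (CG G u) := by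
  have : Fintype M := Fintype.ofFinite M
  have hN : (G.subgroupOf M).Normal := ⟨fun n hn' g => hn g g.2 n hn'⟩
  have h := index_formula (p := p) (E := M) (G := G.subgroupOf M) hi
  have e1 : (Nat.card (G.subgroupOf M) : ℤ) * fl p (G.subgroupOf M) = FF p G :=
    FF_congr (Subgroup.subgroupOfEquivOfLe hGM)
  have e2 : ∑ u ∈ Finset.univ.filter (fun u : M => u ∉ G.subgroupOf M ∧ orderOf u = p),
      (Nat.card (CG (G.subgroupOf M) u) : ℤ) * fl p (CG (G.subgroupOf M) u) =
      ∑ u ∈ Finset.univ.filter (fun u : E => (u ∈ M ∧ u ∉ G) ∧ orderOf u = p), FF p (CG G u) := by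
    refine Finset.sum_bij (fun u _ => (u : E)) ?_ ?_ ?_ ?_
    · intro u hu
      rw [Finset.mem_filter] at hu ⊢
      refine ⟨Finset.mem_univ _, ⟨u.2, hu.2.1⟩, ?_⟩
      rw [Subgroup.orderOf_coe]
      exact hu.2.2
    · intro u _ u' _ h
      exact Subtype.ext h
    · intro u hu
      rw [Finset.mem_filter] at hu
      refine ⟨⟨u, hu.2.1.1⟩, ?_, rfl⟩
      rw [Finset.mem_filter]
      refine ⟨Finset.mem_univ _, hu.2.1.2, ?_⟩
      rw [← Subgroup.orderOf_coe]
      exact hu.2.2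
    · intro u _
      exact FF_congr (isoCM hGM u)
  rw [e1, e2] at h
  exact h

/-- a subgroup of index `p` -/
lemma exists_max {G M : Subgroup E} (hGM : G < M) (hn : ∀ m ∈ M, ∀ g ∈ G, m * g * m⁻¹ ∈ G)
    (hpM : ∀ m ∈ M, ∃ k : ℕ, m ^ p ^ k ∈ G) :
    ∃ M' : Subgroup E, G ≤ M' ∧ M' ≤ M ∧ (∀ m ∈ M, ∀ g ∈ M', m * g * m⁻¹ ∈ M') ∧
      M'.relIndex M = p := by
  have hN : (G.subgroupOf M).Normal := ⟨fun n hn' g => hn g g.2 n hn'⟩
  have hP : IsPGroup p (M ⧸ G.subgroupOf M) := by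
    intro q
    obtain ⟨m, rfl⟩ := QuotientGroup.mk_surjective q
    obtain ⟨k, hk⟩ := hpM m m.2
    refine ⟨k, ?_⟩
    rw [← QuotientGroup.mk_pow, QuotientGroup.eq_one_iff]
    exact hk
  obtain ⟨n, hn'⟩ := hP.exists_card_eq
  have hn0 : n ≠ 0 := by
    rintro rfl
    rw [pow_zero] at hn'
    have h1 : G.relIndex M = 1 := hn'
    rw [Subgroup.relIndex_eq_one] at h1
    exact absurd h1 (not_le_of_gt hGM)
  obtain ⟨m, rfl⟩ := Nat.exists_eq_succ_of_ne_zero hn0
  obtain ⟨K, hK⟩ := Sylow.exists_subgroup_card_pow_prime (G := M ⧸ G.subgroupOf M) p (n := m)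
    (by rw [hn']; exact pow_dvd_pow p (Nat.le_succ m))
  have hKi : K.index = p := by
    have h1 := K.card_mul_index
    rw [hK, hn', Nat.succ_eq_add_one, pow_succ] at h1
    exact Nat.eq_of_mul_eq_mul_left (pow_pos hp.out.pos m) h1
  have hKn : K.Normal := by
    refine Subgroup.normal_of_index_eq_minFac_card ?_
    rw [hKi, hn', Nat.Prime.pow_minFac hp.out (Nat.succ_ne_zero m)]
  set M₀ : Subgroup M := K.comap (QuotientGroup.mk' (G.subgroupOf M)) with hM₀
  have hM₀n : M₀.Normal := hKn.comap _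
  have hs : (M₀.map M.subtype).subgroupOf M = M₀ :=
    Subgroup.comap_map_eq_self_of_injective M.subtype_injective M₀
  refine ⟨M₀.map M.subtype, ?_, Subgroup.map_subtype_le _, ?_, ?_⟩
  · intro x hx
    refine ⟨⟨x, hGM.le hx⟩, ?_, rfl⟩
    change _ ∈ K
    have : (QuotientGroup.mk' (G.subgroupOf M)) (⟨x, hGM.le hx⟩ : M) = 1 :=
      (QuotientGroup.eq_one_iff _).mpr hx
    rw [this]
    exact K.one_mem
  · rintro m hm _ ⟨g, hg, rfl⟩
    exact ⟨⟨m, hm⟩ * g * ⟨m, hm⟩⁻¹, hM₀n.conj_mem g hg ⟨m, hm⟩, rfl⟩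
  · unfold Subgroup.relIndex
    rw [hs, hM₀, Subgroup.index_comap_of_surjective _ (QuotientGroup.mk'_surjective _), hKi]

end Pool.Agent.Q100.PX
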