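import Pool.Agent.Q100.PX.Amb

set_option autoImplicit false
set_option linter.unusedSectionVars false

/-!
# Normal subgroups of `p`-power index
-/

open scoped Classical BigOperators
open Pool.Agent.Helper884.IC Pool.Agent.Y63.KR
open Pool.Agent.Q100.IV Pool.Agent.Q100.CQ

noncomputable section

namespace Pool.Agent.Q100.PX

variable {p : ℕ} [hp : Fact p.Prime] {E : Type} [Group E]

/-- elementary abelian `p`-subgroups -/
def EA (p : ℕ) (Q : Subgroup E) : Prop := (∀ x ∈ Q, ∀ y ∈ Q, x * y = y * x) ∧ ∀ x ∈ Q, x ^ p = 1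

/-- the Möbius function `(-1)^r p^(r (r - 1) / 2)` -/
def mu (p : ℕ) (Q : Subgroup E) : ℤ :=
  (-1) ^ ((Nat.card Q).factorization p) *
    (p : ℤ) ^ ((Nat.card Q).factorization p * ((Nat.card Q).factorization p - 1) / 2)

/-- `C_G(Q)` -/
def CC (G Q : Subgroup E) : Subgroup E := G ⊓ Subgroup.centralizer (Q : Set E)

lemma mem_CC {G Q : Subgroup E} {x : E} : x ∈ CC G Q ↔ x ∈ G ∧ ∀ q ∈ Q, q * x = x * q := by
  unfold CC
  rw [Subgroup.mem_inf, Subgroup.mem_centralizer_iff]
  exact Iff.rfl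

/-- the product with a commuting element -/
lemma mem_sup_u {Q : Subgroup E} {u : E} (h : ∀ q ∈ Q, u * q = q * u) {x : E} :
    x ∈ Q ⊔ Subgroup.zpowers u ↔ ∃ q ∈ Q, ∃ k : ℤ, q * u ^ k = x := by
  have hZ : Subgroup.zpowers u ≤ Subgroup.normalizer (Q : Set E) := by
    rw [Subgroup.zpowers_le]
    exact conjSub_eq_iff.mp (conj_eq_self h)
  have h1 : x ∈ Q ⊔ Subgroup.zpowers u ↔ x ∈ ((Q ⊔ Subgroup.zpowers u : Subgroup E) : Set E) := Iff.rfl
  rw [h1, Subgroup.coe_mul_of_right_le_normalizer_left _ _ hZ, Set.mem_mul]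
  constructor
  · rintro ⟨q, hq, v, hv, rfl⟩
    obtain ⟨k, rfl⟩ := Subgroup.mem_zpowers_iff.mp hv
    exact ⟨q, hq, k, rfl⟩
  · rintro ⟨q, hq, k, rfl⟩
    exact ⟨q, hq, u ^ k, Subgroup.zpow_mem _ (Subgroup.mem_zpowers u) k, rfl⟩

variable [Finite E] [Fintype E] [Fintype (Subgroup E)]

/-- the elementary abelian subgroups of `M` meeting `G` trivially -/
def QQ (p : ℕ) (G M : Subgroup E) : Finset (Subgroup E) :=
  Finset.univ.filter (fun Q => Q ≤ M ∧ EA p Q ∧ Q ⊓ G = ⊥)

lemma mem_QQ {G M Q : Subgroup E} : Q ∈ QQ p G M ↔ Q ≤ M ∧ EA p Q ∧ Q ⊓ G = ⊥ := by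
  unfold QQ
  rw [Finset.mem_filter]
  exact ⟨fun h => h.2, fun h => ⟨Finset.mem_univ _, h⟩⟩

lemma pow_dvd_of {M M' : Subgroup E} {u : E} (huM' : u ∉ M') (ho : orderOf u = p)
    {k : ℤ} (hk : u ^ k ∈ M') : u ^ k = 1 := by
  by_contra h
  apply huM'
  have h1 : ¬ (p : ℤ) ∣ k := by
    intro h1
    apply h
    rw [← ho] at h1
    exact orderOf_dvd_iff_zpow_eq_one.mp h1
  have h2 : IsCoprime (p : ℤ) k := by
    rw [Int.isCoprime_iff_gcd_eq_one]
    have h3 : Nat.Coprime p k.natAbs := (Nat.Prime.coprime_iff_not_dvd hp.out).mpr (by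
      intro h4
      exact h1 (Int.natCast_dvd.mpr h4))
    exact h3
  obtain ⟨a, b, hab⟩ := h2
  have h3 : u = (u ^ k) ^ b := by
    rw [← zpow_mul]
    conv_lhs => rw [← zpow_one u, ← hab, zpow_add, zpow_mul' u a, zpow_natCast, ← ho,
      pow_orderOf_eq_one, one_zpow, one_mul]
    rw [mul_comm]
  rw [h3]
  exact Subgroup.zpow_mem _ hk b

/-- powers modulo a normal subgroup of index `p` -/
lemma exists_pow_amb {M M' : Subgroup E} (hM'M : M' ≤ M) (hn : ∀ m ∈ M, ∀ g ∈ M', m * g * m⁻¹ ∈ M')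
    (hi : M'.relIndex M = p) {u : E} (huM : u ∈ M) (hu : u ∉ M') {x : E} (hx : x ∈ M) :
    ∃ k : ℤ, x * (u ^ k)⁻¹ ∈ M' := by
  have hN : (M'.subgroupOf M).Normal := ⟨fun n hn' g => hn g g.2 n hn'⟩
  obtain ⟨k, hk⟩ := exists_pow (p := p) (G := M'.subgroupOf M) hi (u := ⟨u, huM⟩)
    (fun h => hu h) ⟨x, hx⟩
  exact ⟨k, hk⟩

/-- **The bijection**, for a fixed `u`. -/
lemma sum_u {G M M' : Subgroup E} (hGM' : G ≤ M') (hM'M : M' ≤ M)
    (hn : ∀ m ∈ M, ∀ g ∈ M', m * g * m⁻¹ ∈ M') (hi : M'.relIndex M = p) {u : E} (huM : u ∈ M)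
    (hu : u ∉ M') (ho : orderOf u = p) :
    ∑ Q ∈ QQ p (CG G u) (CG M' u), mu p Q * FF p (CC (CG G u) Q) =
      ∑ P ∈ (QQ p G M).filter (fun P => u ∈ P), mu p (P ⊓ M') * FF p (CC G P) := by
  have hQcomm : ∀ Q ∈ QQ p (CG G u) (CG M' u), ∀ q ∈ Q, u * q = q * u := by
    intro Q hQ q hq
    exact (mem_CG.mp ((mem_QQ.mp hQ).1 hq)).2
  have hinf : ∀ Q ∈ QQ p (CG G u) (CG M' u), (Q ⊔ Subgroup.zpowers u) ⊓ M' = Q := by
    intro Q hQ
    apply le_antisymm
    · rintro x ⟨hx, hxM'⟩
      obtain ⟨q, hq, k, rfl⟩ := (mem_sup_u (hQcomm Q hQ)).mp hx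
      have h1 : u ^ k ∈ M' := by
        have h2 := M'.mul_mem (M'.inv_mem (mem_CG.mp ((mem_QQ.mp hQ).1 hq)).1) hxM'
        rwa [inv_mul_cancel_left] at h2
      rw [pow_dvd_of (M := M) hu ho h1, mul_one]
      exact hq
    · exact le_inf le_sup_left fun q hq => (mem_CG.mp ((mem_QQ.mp hQ).1 hq)).1
  refine Finset.sum_bij' (fun Q _ => Q ⊔ Subgroup.zpowers u) (fun P _ => P ⊓ M') ?_ ?_ ?_ ?_ ?_
  · intro Q hQ
    have hc := hQcomm Q hQ
    have h1 := mem_QQ.mp hQ
    rw [Finset.mem_filter, mem_QQ]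
    refine ⟨⟨?_, ⟨?_, ?_⟩, ?_⟩, Subgroup.mem_sup_right (Subgroup.mem_zpowers u)⟩
    · refine sup_le (fun q hq => hM'M (mem_CG.mp (h1.1 hq)).1) ?_
      rw [Subgroup.zpowers_le]
      exact huM
    · intro x hx y hy
      obtain ⟨q, hq, k, rfl⟩ := (mem_sup_u hc).mp hx
      obtain ⟨r, hr, l, rfl⟩ := (mem_sup_u hc).mp hy
      have c1 : Commute q r := h1.2.1.1 q hq r hr
      have c2 : Commute u q := hc q hq
      have c3 : Commute u r := hc r hr
      have c4 : Commute (u ^ k) (u ^ l) := (Commute.refl u).zpow_zpow k l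
      exact ((c1.mul_right (c2.zpow_left l).symm).mul_left ((c3.zpow_left k).mul_right c4)).eq
    · intro x hx
      obtain ⟨q, hq, k, rfl⟩ := (mem_sup_u hc).mp hx
      have c2 : Commute u q := hc q hq
      rw [(c2.zpow_left k).symm.mul_pow, h1.2.1.2 q hq, one_mul, ← zpow_natCast, ← zpow_mul, mul_comm,
        zpow_mul, zpow_natCast]
      have : u ^ p = 1 := by rw [← ho]; exact pow_orderOf_eq_one u
      rw [this, one_zpow]
    · rw [eq_bot_iff]
      rintro x ⟨hx, hxG⟩
      have h2 : x ∈ Q := by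
        rw [← hinf Q hQ]
        exact ⟨hx, hGM' hxG⟩
      rw [← h1.2.2]
      exact ⟨h2, mem_CG.mpr ⟨hxG, hc x h2⟩⟩
  · intro P hP
    rw [Finset.mem_filter, mem_QQ] at hP
    rw [mem_QQ]
    refine ⟨fun x hx => mem_CG.mpr ⟨hx.2, hP.1.2.1.1 u hP.2 x hx.1⟩,
      ⟨fun x hx y hy => hP.1.2.1.1 x hx.1 y hy.1, fun x hx => hP.1.2.1.2 x hx.1⟩, ?_⟩
    rw [eq_bot_iff, ← hP.1.2.2]
    rintro x ⟨hx, hxG⟩
    exact ⟨hx.1, (mem_CG.mp hxG).1⟩
  · intro Q hQ
    exact hinf Q hQ
  · intro P hP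
    rw [Finset.mem_filter, mem_QQ] at hP
    have hc : ∀ q ∈ P ⊓ M', u * q = q * u := fun q hq => hP.1.2.1.1 u hP.2 q hq.1
    apply le_antisymm
    · refine sup_le inf_le_left ?_
      rw [Subgroup.zpowers_le]
      exact hP.2
    · intro x hx
      obtain ⟨k, hk⟩ := exists_pow_amb hM'M hn hi huM hu (hP.1.1 hx)
      refine (mem_sup_u hc).mpr ⟨x * (u ^ k)⁻¹, ⟨?_, hk⟩, k, ?_⟩
      · exact P.mul_mem hx (P.inv_mem (P.zpow_mem hP.2 k))
      · rw [inv_mul_cancel_right]
  · intro Q hQ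
    have hc := hQcomm Q hQ
    have hCC : CC (CG G u) Q = CC G (Q ⊔ Subgroup.zpowers u) := by
      ext x
      rw [mem_CC, mem_CC, mem_CG]
      constructor
      · rintro ⟨⟨hxG, hxu⟩, h⟩
        refine ⟨hxG, fun y hy => ?_⟩
        obtain ⟨q, hq, k, rfl⟩ := (mem_sup_u hc).mp hy
        have c1 : Commute q x := h q hq
        have c2 : Commute u x := hxu
        exact (c1.mul_left (c2.zpow_left k)).eq
      · rintro ⟨hxG, h⟩
        exact ⟨⟨hxG, h u (Subgroup.mem_sup_right (Subgroup.mem_zpowers u))⟩,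
          fun q hq => h q (Subgroup.mem_sup_left hq)⟩
    change mu p Q * FF p (CC (CG G u) Q) = mu p ((Q ⊔ Subgroup.zpowers u) ⊓ M') *
      FF p (CC G (Q ⊔ Subgroup.zpowers u))
    rw [hinf Q hQ, hCC]

/-- the orders -/
lemma card_P {G M M' P : Subgroup E} (hM'M : M' ≤ M)
    (hn : ∀ m ∈ M, ∀ g ∈ M', m * g * m⁻¹ ∈ M') (hi : M'.relIndex M = p)
    (hPM : P ≤ M) (hPM' : ¬ P ≤ M') : Nat.card P = Nat.card (P ⊓ M' : Subgroup E) * p := by
  have hN : (M'.subgroupOf M).Normal := ⟨fun n hn' g => hn g g.2 n hn'⟩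
  have h1 : M'.relIndex P ∣ p := by
    have h2 := Subgroup.relIndex_dvd_index_of_normal (M'.subgroupOf M) (P.subgroupOf M)
    rw [Subgroup.relIndex_subgroupOf hPM] at h2
    have h3 : (M'.subgroupOf M).index = p := hi
    rwa [h3] at h2
  have h2 : M'.relIndex P = p := by
    rcases (Nat.dvd_prime hp.out).mp h1 with h3 | h3
    · exact absurd (Subgroup.relIndex_eq_one.mp h3) hPM'
    · exact h3
  have h3 := Subgroup.card_mul_index (M'.subgroupOf P)
  have h4 : (M'.subgroupOf P).index = p := h2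
  have h5 : Nat.card (M'.subgroupOf P) = Nat.card (P ⊓ M' : Subgroup E) := by
    rw [← Subgroup.inf_subgroupOf_left M' P]
    exact Nat.card_congr (Subgroup.subgroupOfEquivOfLe (inf_le_left : P ⊓ M' ≤ P)).toEquiv
  rw [h4, h5] at h3
  exact h3.symm

lemma ea_pgroup {Q : Subgroup E} (h : EA p Q) : IsPGroup p Q := by
  intro x
  exact ⟨1, by rw [pow_one]; exact Subtype.ext (h.2 x x.2)⟩

/-- the Möbius function -/
lemma mu_step {P Q : Subgroup E} (hQ : IsPGroup p Q) (hPQ : Nat.card P = Nat.card Q * p) :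
    mu p P = -(Nat.card Q : ℤ) * mu p Q := by
  obtain ⟨r, hr⟩ := hQ.exists_card_eq
  have h1 : (Nat.card Q).factorization p = r := by
    rw [hr, Nat.factorization_pow, Finsupp.smul_apply, Nat.Prime.factorization_self hp.out,
      smul_eq_mul, mul_one]
  have h2 : (Nat.card P).factorization p = r + 1 := by
    rw [hPQ, hr, ← pow_succ, Nat.factorization_pow, Finsupp.smul_apply,
      Nat.Prime.factorization_self hp.out, smul_eq_mul, mul_one]
  unfold mu
  rw [h1, h2, hr]
  have h3 : (r + 1) * (r + 1 - 1) / 2 = r * (r - 1) / 2 + r := by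
    have h4 : (r + 1) * (r + 1 - 1) = r * (r - 1) + r * 2 := by
      rw [Nat.add_sub_cancel]
      rcases r with _ | r
      · rfl
      · rw [Nat.add_sub_cancel]; ring
    rw [h4, Nat.add_mul_div_right _ _ (by norm_num)]
  rw [h3, pow_succ, pow_add]
  push_cast
  ring

/-- **The formula for normal subgroups of `p`-power index.** -/
theorem general : ∀ (n : ℕ) (M G : Subgroup E), Nat.card M ≤ n → G ≤ M →
    (∀ m ∈ M, ∀ g ∈ G, m * g * m⁻¹ ∈ G) → (∀ m ∈ M, ∃ k : ℕ, m ^ p ^ k ∈ G) →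
    FF p M = ∑ Q ∈ QQ p G M, mu p Q * FF p (CC G Q) := by
  intro n
  induction n with
  | zero =>
    intro M G hM _ _ _
    have : 0 < Nat.card M := Nat.card_pos
    omega
  | succ n ih =>
    intro M G hM hGM hnorm hpow
    rcases hGM.eq_or_lt with heq | hlt
    · subst heq
      have h1 : QQ p G G = {⊥} := by
        ext Q
        rw [mem_QQ, Finset.mem_singleton]
        constructor
        · rintro ⟨h1, -, h2⟩
          rwa [inf_eq_left.mpr h1] at h2
        · rintro rfl
          refine ⟨bot_le, ⟨?_, ?_⟩, bot_inf_eq _⟩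
          · intro x hx y hy
            rw [Subgroup.mem_bot] at hx hy
            rw [hx, hy]
          · intro x hx
            rw [Subgroup.mem_bot] at hx
            rw [hx, one_pow]
      have h2 : CC G (⊥ : Subgroup E) = G := by
        ext x
        rw [mem_CC]
        refine ⟨fun h => h.1, fun h => ⟨h, fun q hq => ?_⟩⟩
        rw [Subgroup.mem_bot] at hq
        rw [hq, one_mul, mul_one]
      have h3 : mu p (⊥ : Subgroup E) = 1 := by
        unfold mu
        rw [Subgroup.card_bot, Nat.factorization_one, Finsupp.zero_apply, pow_zero, zero_mul,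
          Nat.zero_div, pow_zero, one_mul]
      rw [h1, Finset.sum_singleton, h2, h3, one_mul]
    · obtain ⟨M', hGM', hM'M, hn', hi⟩ := exists_max (p := p) hlt hnorm hpow
      have hcard : Nat.card M' ≤ n := by
        have h1 : Nat.card M' < Nat.card M := by
          have h2 : M' ≠ M := by
            rintro rfl
            rw [Subgroup.relIndex_self] at hi
            exact hp.out.one_lt.ne hi
          have h3 : M' < M := lt_of_le_of_ne hM'M h2
          exact Set.ncard_lt_ncard h3 (Set.toFinite _)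
        omega
      have hp1 : (p : ℤ) - 1 ≠ 0 := by
        have := hp.out.one_lt
        omega
      have key := index_amb (p := p) hM'M hn' hi
      have ih1 := ih M' G hcard hGM' (fun m hm => hnorm m (hM'M hm)) (fun m hm => hpow m (hM'M hm))
      have ih2 : ∀ u ∈ Finset.univ.filter (fun u : E => (u ∈ M ∧ u ∉ M') ∧ orderOf u = p),
          FF p (CG M' u) =
            ∑ P ∈ (QQ p G M).filter (fun P => u ∈ P), mu p (P ⊓ M') * FF p (CC G P) := by
        intro u hu
        rw [Finset.mem_filter] at hu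
        rw [← sum_u hGM' hM'M hn' hi hu.2.1.1 hu.2.1.2 hu.2.2]
        refine ih (CG M' u) (CG G u) ?_ ?_ ?_ ?_
        · exact (Subgroup.card_le_of_le inf_le_left).trans hcard
        · intro x hx
          rw [mem_CG] at hx ⊢
          exact ⟨hGM' hx.1, hx.2⟩
        · intro m hm g hg
          rw [mem_CG] at hm hg ⊢
          refine ⟨hnorm m (hM'M hm.1) g hg.1, ?_⟩
          have c1 : Commute u m := hm.2
          have c2 : Commute u g := hg.2
          exact ((c1.mul_right c2).mul_right c1.inv_right).eq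
        · intro m hm
          rw [mem_CG] at hm
          obtain ⟨k, hk⟩ := hpow m (hM'M hm.1)
          have c1 : Commute u m := hm.2
          exact ⟨k, mem_CG.mpr ⟨hk, (c1.pow_right _).eq⟩⟩
      rw [Finset.sum_congr rfl ih2] at key
      have hswap : ∑ u ∈ Finset.univ.filter (fun u : E => (u ∈ M ∧ u ∉ M') ∧ orderOf u = p),
          ∑ P ∈ (QQ p G M).filter (fun P => u ∈ P), mu p (P ⊓ M') * FF p (CC G P) =
          ∑ P ∈ (QQ p G M).filter (fun P => ¬ P ≤ M'), -(((p : ℤ) - 1) * (mu p P * FF p (CC G P))) := by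
        have e1 : ∀ u : E, ∑ P ∈ (QQ p G M).filter (fun P => u ∈ P), mu p (P ⊓ M') * FF p (CC G P) =
            ∑ P ∈ QQ p G M, if u ∈ P then mu p (P ⊓ M') * FF p (CC G P) else 0 := by
          intro u
          rw [Finset.sum_filter]
        rw [Finset.sum_congr rfl fun u _ => e1 u, Finset.sum_comm,
          ← Finset.sum_filter_add_sum_filter_not (QQ p G M) (fun P => P ≤ M')]
        have e2 : ∑ P ∈ (QQ p G M).filter (fun P => P ≤ M'),
            ∑ u ∈ Finset.univ.filter (fun u : E => (u ∈ M ∧ u ∉ M') ∧ orderOf u = p),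
              (if u ∈ P then mu p (P ⊓ M') * FF p (CC G P) else 0) = 0 := by
          refine Finset.sum_eq_zero fun P hP => Finset.sum_eq_zero fun u hu => ?_
          rw [Finset.mem_filter] at hP hu
          rw [if_neg]
          intro h
          exact hu.2.1.2 (hP.2 h)
        rw [e2, zero_add]
        refine Finset.sum_congr rfl fun P hP => ?_
        rw [Finset.mem_filter, mem_QQ] at hP
        rw [← Finset.sum_filter, Finset.sum_const, nsmul_eq_mul]
        have hc := card_P (p := p) (G := G) hM'M hn' hi hP.1.1 hP.2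
        have hQp : IsPGroup p (P ⊓ M' : Subgroup E) := (ea_pgroup hP.1.2.1).to_le inf_le_left
        have e3 := mu_step hQp hc
        have e4 : (((Finset.univ.filter (fun u : E => (u ∈ M ∧ u ∉ M') ∧ orderOf u = p)).filter
            (fun u => u ∈ P)).card : ℤ) = ((p : ℤ) - 1) * (Nat.card (P ⊓ M' : Subgroup E) : ℤ) := by
          have e5 : (Finset.univ.filter (fun u : E => (u ∈ M ∧ u ∉ M') ∧ orderOf u = p)).filter
            (fun u => u ∈ P) = (Finset.univ.filter (fun u : E => u ∈ P)) \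
              (Finset.univ.filter (fun u : E => u ∈ P ⊓ M')) := by
            ext u
            rw [Finset.mem_filter, Finset.mem_filter, Finset.mem_sdiff, Finset.mem_filter,
              Finset.mem_filter]
            constructor
            · rintro ⟨⟨-, ⟨-, h1⟩, -⟩, h2⟩
              exact ⟨⟨Finset.mem_univ _, h2⟩, fun h3 => h1 h3.2.2⟩
            · rintro ⟨⟨-, h1⟩, h2⟩
              have h3 : u ∉ M' := fun h3 => h2 ⟨Finset.mem_univ _, h1, h3⟩
              refine ⟨⟨Finset.mem_univ _, ⟨hP.1.1 h1, h3⟩, ?_⟩, h1⟩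
              rcases (Nat.dvd_prime hp.out).mp (orderOf_dvd_of_pow_eq_one (hP.1.2.1.2 u h1)) with h4 | h4
              · rw [orderOf_eq_one_iff] at h4
                rw [h4] at h3
                exact absurd M'.one_mem h3
              · exact h4
          rw [e5, Finset.card_sdiff_of_subset, Nat.cast_sub]
          · rw [← Fintype.card_subtype, ← Fintype.card_subtype, ← Nat.card_eq_fintype_card,
              ← Nat.card_eq_fintype_card]
            have e6 : Nat.card {x // x ∈ P} = Nat.card {x // x ∈ P ⊓ M'} * p := hc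
            rw [e6]
            push_cast
            ring
          · apply Finset.card_le_card
            intro x hx
            rw [Finset.mem_filter] at hx ⊢
            exact ⟨hx.1, hx.2.1⟩
          · intro x hx
            rw [Finset.mem_filter] at hx ⊢
            exact ⟨hx.1, hx.2.1⟩
        rw [e4, e3]
        ring
      rw [hswap] at key
      have hfil : (QQ p G M).filter (fun P => P ≤ M') = QQ p G M' := by
        ext P
        rw [Finset.mem_filter, mem_QQ, mem_QQ]
        constructor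
        · rintro ⟨⟨-, h1⟩, h2⟩
          exact ⟨h2, h1⟩
        · rintro ⟨h1, h2⟩
          exact ⟨⟨h1.trans hM'M, h2⟩, h1⟩
      rw [← Finset.sum_filter_add_sum_filter_not (QQ p G M) (fun P => P ≤ M'), hfil, ← ih1]
      rw [Finset.sum_neg_distrib, ← Finset.mul_sum] at key
      have h9 : ((p : ℤ) - 1) * FF p M = ((p : ℤ) - 1) * (FF p M' +
          ∑ P ∈ (QQ p G M).filter (fun P => ¬ P ≤ M'), mu p P * FF p (CC G P)) := by
        rw [key]
        ring
      exact mul_left_cancel₀ hp1 h9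

end Pool.Agent.Q100.PX
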