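import Pool.Agent.Q100.PX.Alt

set_option autoImplicit false
set_option linter.unusedSectionVars false

/-!
# Normal subgroups of index `p`: the sums over pairs
-/

open scoped Classical BigOperators
open Pool.Agent.Helper884.IC Pool.Agent.Y63.KR
open Pool.Agent.Q100.IV Pool.Agent.Q100.CQ

noncomputable section

namespace Pool.Agent.Q100.PX

variable {E : Type} [Group E] {p : ℕ} {G : Subgroup E} [hG : G.Normal]

/-- **Main identity**, in terms of pairs -/
theorem pairs_split [hp : Fact p.Prime] [Finite E] [Fintype E] {e : E} {a : ℕ}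
    (he : orderOf (e : E ⧸ G) = p ^ a) :
    ∑ q ∈ Finset.univ.filter (fun q : E × E => q.1 ∈ G ∧ q.2 * e⁻¹ ∈ G ∧ q.2 * q.1 = q.1 * q.2),
      alt (· ≤ ·) (SS p {q.1, q.2} G ⊥) =
      ∑ u ∈ Finset.univ.filter (fun u : E => u * e⁻¹ ∈ G ∧ orderOf u = p ^ a),
        (Nat.card (CG G u) : ℤ) *
          alternatingSum p (CG G u) (fun H => (Nat.card (ConjClasses H) : ℤ)) := by
  obtain ⟨γ, β, A, M, hN, hM, hγ, hMγ, hβ, hβM, hγβ⟩ :=
    exists_exps hp.out (N := Nat.card E) Nat.card_pos.ne'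
  have hpow : ∀ y : E, y ^ Nat.card E = 1 := fun y => pow_card_eq_one'
  have hsplit : ∀ y : E, y ^ γ * y ^ β = y := by
    intro y
    rw [← pow_add]
    conv_rhs => rw [← pow_one y]
    exact pow_eq_pow_iff_modEq.mpr (hγβ.of_dvd (orderOf_dvd_of_pow_eq_one (hpow y)))
  have hpp : ∀ y : E, (y ^ γ) ^ p ^ A = 1 := by
    intro y
    obtain ⟨c, hc⟩ := hMγ
    rw [← pow_mul, hc]
    have : M * c * p ^ A = Nat.card E * c := by rw [hN]; ring
    rw [this, pow_mul, hpow, one_pow]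
  have hreg : ∀ y : E, ¬ p ∣ orderOf (y ^ β) := by
    intro y h
    apply hM
    refine h.trans (orderOf_dvd_of_pow_eq_one ?_)
    obtain ⟨c, hc⟩ := hβ
    rw [← pow_mul, hc]
    have : p ^ A * c * M = Nat.card E * c := by rw [hN]; ring
    rw [this, pow_mul, hpow, one_pow]
  -- powers of `p`-elements and of `p`-regular elements
  have hpu : ∀ u : E, (∃ k, u ^ p ^ k = 1) → u ^ γ = u ∧ u ^ β = 1 := by
    rintro u ⟨k, hk⟩
    have hd : orderOf u ∣ p ^ A := by
      have h1 : orderOf u ∣ Nat.card E := orderOf_dvd_natCard u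
      obtain ⟨j, -, hj⟩ := (Nat.dvd_prime_pow hp.out).mp (orderOf_dvd_of_pow_eq_one hk)
      rw [hj, hN] at h1
      rw [hj]
      exact Nat.Coprime.dvd_of_dvd_mul_right
        (((Nat.Prime.coprime_iff_not_dvd hp.out).mpr hM).pow_left j) h1
    constructor
    · conv_rhs => rw [← pow_one u]
      exact pow_eq_pow_iff_modEq.mpr (hγ.of_dvd hd)
    · exact orderOf_dvd_iff_pow_eq_one.mp (hd.trans hβ)
  have hpz : ∀ z : E, ¬ p ∣ orderOf z → z ^ γ = 1 ∧ z ^ β = z := by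
    intro z hz
    have hd : orderOf z ∣ M := by
      have h1 : orderOf z ∣ Nat.card E := orderOf_dvd_natCard z
      rw [hN] at h1
      exact Nat.Coprime.dvd_of_dvd_mul_left
        (((Nat.Prime.coprime_iff_not_dvd hp.out).mpr hz).symm.pow_right A) h1
    constructor
    · exact orderOf_dvd_iff_pow_eq_one.mp (hd.trans hMγ)
    · conv_rhs => rw [← pow_one z]
      exact pow_eq_pow_iff_modEq.mpr (hβM.of_dvd hd)
  have haA : p ^ a ∣ p ^ A := by
    have h1 : orderOf (e : E ⧸ G) ∣ Nat.card E :=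
      (orderOf_dvd_natCard _).trans (Subgroup.card_quotient_dvd_card G)
    rw [he, hN] at h1
    exact Nat.Coprime.dvd_of_dvd_mul_right
      (((Nat.Prime.coprime_iff_not_dvd hp.out).mpr hM).pow_left a) h1
  have heγ : (e : E ⧸ G) ^ γ = (e : E ⧸ G) := by
    conv_rhs => rw [← pow_one (e : E ⧸ G)]
    refine pow_eq_pow_iff_modEq.mpr (hγ.of_dvd ?_)
    rw [he]
    exact haA
  have hcos : ∀ y : E, y * e⁻¹ ∈ G ↔ (y : E ⧸ G) = (e : E ⧸ G) := by
    intro y
    rw [QuotientGroup.eq]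
    constructor
    · intro h
      have h2 := hG.conj_mem _ (G.inv_mem h) y⁻¹
      have e2 : y⁻¹ * (y * e⁻¹)⁻¹ * y⁻¹⁻¹ = y⁻¹ * e := by group
      rwa [e2] at h2
    · intro h
      have h2 := hG.conj_mem _ (G.inv_mem h) y
      have e2 : y * (y⁻¹ * e)⁻¹ * y⁻¹ = y * e⁻¹ := by group
      rwa [e2] at h2
  have hcosγ : ∀ y : E, y * e⁻¹ ∈ G → (y ^ γ) * e⁻¹ ∈ G := by
    intro y hy
    rw [hcos] at hy ⊢
    rw [QuotientGroup.mk_pow, hy, heγ]
  -- restriction to the pairs with a complement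
  have hstep1 : ∑ q ∈ Finset.univ.filter (fun q : E × E => q.1 ∈ G ∧ q.2 * e⁻¹ ∈ G ∧
      q.2 * q.1 = q.1 * q.2), alt (· ≤ ·) (SS p {q.1, q.2} G ⊥) =
      ∑ q ∈ (Finset.univ.filter (fun q : E × E => q.1 ∈ G ∧ q.2 * e⁻¹ ∈ G ∧
        q.2 * q.1 = q.1 * q.2)).filter (fun q => orderOf (q.2 ^ γ) = p ^ a),
        alt (· ≤ ·) (SS p {q.1, q.2} G ⊥) := by
    rw [Finset.sum_filter (s := Finset.univ.filter (fun q : E × E => q.1 ∈ G ∧ q.2 * e⁻¹ ∈ G ∧
        q.2 * q.1 = q.1 * q.2))]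
    refine Finset.sum_congr rfl fun q hq => ?_
    rw [Finset.mem_filter] at hq
    split_ifs with h1
    · rfl
    · set u := q.2 ^ γ with hu
      have hubar : orderOf (u : E ⧸ G) = p ^ a := by
        rw [(hcos _).mp (hcosγ _ hq.2.2.1), he]
      have hd : p ^ a ∣ orderOf u := by
        rw [← hubar]
        exact orderOf_map_dvd (QuotientGroup.mk' G) u
      refine alt_w (w := u ^ p ^ a) (k := A) ?_ ?_ ?_ ?_ hq.2.2.2
      · intro h
        exact h1 (Nat.dvd_antisymm (orderOf_dvd_of_pow_eq_one h) hd)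
      · rw [← QuotientGroup.eq_one_iff, QuotientGroup.mk_pow, ← hubar, pow_orderOf_eq_one]
      · rw [← pow_mul, mul_comm, pow_mul, hpp, one_pow]
      · exact Subgroup.pow_mem _ (Subgroup.pow_mem _ (Subgroup.mem_zpowers _) _) _
  rw [hstep1, ← Finset.sum_fiberwise_of_maps_to (g := fun q : E × E => q.2 ^ γ)
    (t := Finset.univ.filter (fun u : E => u * e⁻¹ ∈ G ∧ orderOf u = p ^ a))]
  swap
  · intro q hq
    rw [Finset.mem_filter, Finset.mem_filter] at hq
    rw [Finset.mem_filter]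
    exact ⟨Finset.mem_univ _, hcosγ _ hq.1.2.2.1, hq.2⟩
  refine Finset.sum_congr rfl fun u hu => ?_
  rw [Finset.mem_filter] at hu
  have hup : ∃ k : ℕ, u ^ p ^ k = 1 := ⟨a, by rw [← hu.2.2]; exact pow_orderOf_eq_one u⟩
  have : Fintype {q : CG G u × CG G u // Commute q.1 q.2} := Fintype.ofFinite _
  rw [altK]
  have hstep2 : ∑ t : {q : CG G u × CG G u // Commute q.1 q.2}, W p {t.1.1, t.1.2} =
      ∑ t ∈ Finset.univ.filter (fun t : {q : CG G u × CG G u // Commute q.1 q.2} =>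
        ¬ p ∣ orderOf (t.1.2 : E)), W p {t.1.1, t.1.2} := by
    symm
    refine Finset.sum_filter_of_ne fun t _ ht h => ht ?_
    have h1 : p ∣ orderOf t.1.2 := by rwa [← Subgroup.orderOf_coe]
    have h2 := W_eq_zero (p := p) (s := 1) (x := t.1.2) (y := t.1.1) (by
      rw [pow_one, t.2.eq]; group) h1
    rw [Set.pair_comm]
    exact h2
  rw [hstep2]
  symm
  refine Finset.sum_bij (fun t _ => ((t.1.1 : E), u * (t.1.2 : E))) ?_ ?_ ?_ ?_
  · intro t ht
    rw [Finset.mem_filter] at ht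
    have hx := mem_CG.mp t.1.1.2
    have hz := mem_CG.mp t.1.2.2
    have hxz : (t.1.1 : E) * t.1.2 = t.1.2 * t.1.1 := congrArg Subtype.val t.2.eq
    have huz : (u * (t.1.2 : E)) ^ γ = u := by
      have hc : Commute u (t.1.2 : E) := hz.2
      rw [hc.mul_pow, (hpu u hup).1, (hpz _ ht.2).1, mul_one]
    rw [Finset.mem_filter, Finset.mem_filter, Finset.mem_filter]
    refine ⟨⟨⟨Finset.mem_univ _, hx.1, ?_, ?_⟩, ?_⟩, huz⟩
    · change u * (t.1.2 : E) * e⁻¹ ∈ G
      have : u * (t.1.2 : E) * e⁻¹ = u * (t.1.2 : E) * u⁻¹ * (u * e⁻¹) := by group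
      rw [this]
      exact G.mul_mem (hG.conj_mem _ hz.1 u) hu.2.1
    · change u * (t.1.2 : E) * t.1.1 = t.1.1 * (u * t.1.2)
      rw [mul_assoc, ← hxz, ← mul_assoc, hx.2, mul_assoc]
    · change orderOf ((u * (t.1.2 : E)) ^ γ) = p ^ a
      rw [huz, hu.2.2]
  · intro t _ t' _ h
    rw [Prod.mk.injEq] at h
    apply Subtype.ext
    exact Prod.ext (Subtype.ext h.1) (Subtype.ext (mul_left_cancel h.2))
  · intro q hq
    rw [Finset.mem_filter, Finset.mem_filter, Finset.mem_filter] at hq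
    obtain ⟨⟨⟨-, hx, hye, hxy⟩, -⟩, hqu⟩ := hq
    have hcx : Commute q.2 q.1 := hxy
    have hcu : ∀ n : ℕ, q.2 ^ n * q.1 = q.1 * q.2 ^ n := fun n => (hcx.pow_left n).eq
    have hxC : q.1 ∈ CG G u := mem_CG.mpr ⟨hx, by rw [← hqu]; exact hcu γ⟩
    have hzG : q.2 ^ β ∈ G := by
      have h1 : q.2 ^ β = u⁻¹ * q.2 := by
        have h2 := hsplit q.2
        rw [hqu] at h2
        conv_rhs => rw [← h2]
        group
      rw [h1, ← QuotientGroup.eq]
      rw [(hcos _).mp hye, (hcos _).mp hu.2.1]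
    have hzC : q.2 ^ β ∈ CG G u := by
      refine mem_CG.mpr ⟨hzG, ?_⟩
      rw [← hqu]
      exact ((Commute.refl q.2).pow_pow γ β).eq
    refine ⟨⟨(⟨q.1, hxC⟩, ⟨q.2 ^ β, hzC⟩), ?_⟩, ?_, ?_⟩
    · exact Subtype.ext (hcu β).symm
    · rw [Finset.mem_filter]
      exact ⟨Finset.mem_univ _, hreg q.2⟩
    · refine Prod.ext rfl ?_
      change u * q.2 ^ β = q.2
      rw [← hqu]
      exact hsplit q.2
  · intro t ht
    rw [Finset.mem_filter] at ht
    have hz := mem_CG.mp t.1.2.2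
    have hc : Commute u (t.1.2 : E) := hz.2
    change W p {t.1.1, t.1.2} = alt (· ≤ ·) (SS p {(t.1.1 : E), u * (t.1.2 : E)} G ⊥)
    rw [alt_centralizer hup t.1.1.2 t.1.2.2 ⟨γ, β, ?_, ?_⟩, W_alt, ← alt_subgroup, Set.image_pair]
    · rw [hc.mul_pow, (hpu u hup).1, (hpz _ ht.2).1, mul_one]
    · rw [hc.mul_pow, (hpu u hup).2, (hpz _ ht.2).2, one_mul]



/-- `|H|` times the alternating sum of the class numbers -/
def TA (p : ℕ) (H : Type) [Group H] : ℤ :=
  (Nat.card H : ℤ) * alternatingSum p H (fun K => (Nat.card (ConjClasses K) : ℤ))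

variable [Finite E] [Fintype E] [hp : Fact p.Prime]

theorem TA_type : TA p E = ∑ q ∈ Finset.univ.filter (fun q : E × E => q.2 * q.1 = q.1 * q.2),
    alt (· ≤ ·) (SS p {q.1, q.2} ⊤ ⊥) := by
  have : Fintype {q : E × E // Commute q.1 q.2} := Fintype.ofFinite _
  unfold TA
  rw [altK]
  refine Finset.sum_bij (fun t _ => (t.1.1, t.1.2)) ?_ ?_ ?_ ?_
  · intro t _
    rw [Finset.mem_filter]
    exact ⟨Finset.mem_univ _, t.2.eq.symm⟩
  · intro t _ t' _ h
    exact Subtype.ext h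
  · intro q hq
    rw [Finset.mem_filter] at hq
    exact ⟨⟨q, hq.2.symm⟩, Finset.mem_univ _, rfl⟩
  · intro t _
    exact W_alt _

theorem TA_sub (H : Subgroup E) : TA p H =
    ∑ q ∈ Finset.univ.filter (fun q : E × E => q.1 ∈ H ∧ q.2 ∈ H ∧ q.2 * q.1 = q.1 * q.2),
      alt (· ≤ ·) (SS p {q.1, q.2} H ⊥) := by
  have : Fintype {q : H × H // Commute q.1 q.2} := Fintype.ofFinite _
  unfold TA
  rw [altK]
  refine Finset.sum_bij (fun t _ => ((t.1.1 : E), (t.1.2 : E))) ?_ ?_ ?_ ?_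
  · intro t _
    rw [Finset.mem_filter]
    exact ⟨Finset.mem_univ _, t.1.1.2, t.1.2.2, (congrArg Subtype.val t.2.eq).symm⟩
  · intro t _ t' _ h
    rw [Prod.mk.injEq] at h
    exact Subtype.ext (Prod.ext (Subtype.ext h.1) (Subtype.ext h.2))
  · intro q hq
    rw [Finset.mem_filter] at hq
    exact ⟨⟨(⟨q.1, hq.2.1⟩, ⟨q.2, hq.2.2.1⟩), Subtype.ext hq.2.2.2.symm⟩, Finset.mem_univ _, rfl⟩
  · intro t _
    change W p {t.1.1, t.1.2} = alt (· ≤ ·) (SS p {(t.1.1 : E), (t.1.2 : E)} H ⊥)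
    rw [W_alt, ← alt_subgroup, Set.image_pair]

lemma zG (hi : G.index = p) {u : E} (hu : u ∉ G) (ho : orderOf u = p) : Subgroup.zpowers u ⊓ G = ⊥ := by
  by_contra h
  have h1 : Nat.card (Subgroup.zpowers u ⊓ G : Subgroup E) ∣ Nat.card (Subgroup.zpowers u) :=
    Subgroup.card_dvd_of_le inf_le_left
  rw [Nat.card_zpowers, ho] at h1
  rcases (Nat.dvd_prime hp.out).mp h1 with h4 | h4
  · exact h (Subgroup.card_eq_one.mp h4)
  · have h5 : Subgroup.zpowers u ⊓ G = Subgroup.zpowers u := by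
      apply Subgroup.eq_of_le_of_card_ge inf_le_left
      rw [h4, Nat.card_zpowers, ho]
    exact hu (inf_eq_left.mp h5 (Subgroup.mem_zpowers u))

/-- **The pairs in `C_E(u)`.** -/
theorem sum_cent (hi : G.index = p) {u : E} (hu : u ∉ G) (ho : orderOf u = p) :
    ∑ q ∈ Finset.univ.filter (fun q : E × E => q.2 * q.1 = q.1 * q.2 ∧
      u * q.1 = q.1 * u ∧ u * q.2 = q.2 * u), alt (· ≤ ·) (SS p {q.1, q.2} (CG G u) ⊥) =
      (p : ℤ) ^ 2 * TA p (CG G u) := by
  have hZ := zG hi hu ho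
  have : Fintype (Subgroup.zpowers u) := Fintype.ofFinite _
  rw [TA_sub, Finset.mul_sum]
  have h1 : ∀ q : E × E, (p : ℤ) ^ 2 * alt (· ≤ ·) (SS p {q.1, q.2} (CG G u) ⊥) =
      ∑ v : Subgroup.zpowers u × Subgroup.zpowers u, alt (· ≤ ·) (SS p {q.1, q.2} (CG G u) ⊥) := by
    intro q
    rw [Finset.sum_const, nsmul_eq_mul, Finset.card_univ, Fintype.card_prod,
      ← Nat.card_eq_fintype_card, Nat.card_zpowers, ho]
    push_cast
    ring
  rw [Finset.sum_congr rfl fun q _ => h1 q, ← Finset.sum_product']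
  symm
  have hcz : ∀ v ∈ Subgroup.zpowers u, u * v = v * u := by
    intro v hv
    obtain ⟨k, rfl⟩ := Subgroup.mem_zpowers_iff.mp hv
    exact ((Commute.refl u).zpow_right k).eq
  have hcc : ∀ v ∈ Subgroup.zpowers u, ∀ x : E, u * x = x * u → v * x = x * v := by
    intro v hv x hx
    obtain ⟨k, rfl⟩ := Subgroup.mem_zpowers_iff.mp hv
    have : Commute u x := hx
    exact (this.zpow_left k).eq
  have huniq : ∀ g ∈ G, ∀ g' ∈ G, ∀ v ∈ Subgroup.zpowers u, ∀ v' ∈ Subgroup.zpowers u,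
      g * v = g' * v' → g = g' ∧ v = v' := by
    intro g hg g' hg' v hv v' hv' h
    have h2 : g'⁻¹ * g = v' * v⁻¹ := by
      calc g'⁻¹ * g = g'⁻¹ * (g * v) * v⁻¹ := by group
        _ = v' * v⁻¹ := by rw [h]; group
    have h3 : g'⁻¹ * g ∈ Subgroup.zpowers u ⊓ G :=
      ⟨by rw [h2]; exact Subgroup.mul_mem _ hv' (Subgroup.inv_mem _ hv),
        G.mul_mem (G.inv_mem hg') hg⟩
    rw [hZ, Subgroup.mem_bot] at h3
    have h4 : g = g' := (inv_mul_eq_one.mp h3).symm
    subst h4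
    exact ⟨rfl, mul_left_cancel h⟩
  refine Finset.sum_bij (fun t _ => (t.1.1 * (t.2.1 : E), t.1.2 * (t.2.2 : E))) ?_ ?_ ?_ ?_
  · rintro ⟨⟨x, y⟩, ⟨v, w⟩⟩ ht
    rw [Finset.mem_product, Finset.mem_filter] at ht
    obtain ⟨⟨-, hx, hy, hxy⟩, -⟩ := ht
    rw [mem_CG] at hx hy
    rw [Finset.mem_filter]
    change x ∈ G ∧ u * x = x * u at hx
    change y ∈ G ∧ u * y = y * u at hy
    change y * x = x * y at hxy
    have a1 : Commute (v : E) x := hcc v v.2 x hx.2
    have a2 : Commute (v : E) y := hcc v v.2 y hy.2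
    have a3 : Commute (w : E) x := hcc w w.2 x hx.2
    have a4 : Commute (w : E) y := hcc w w.2 y hy.2
    have a5 : Commute (w : E) (v : E) := hcc w w.2 v (hcz v v.2)
    have a6 : Commute y x := hxy
    have a7 : Commute u x := hx.2
    have a8 : Commute u y := hy.2
    have a9 : Commute u (v : E) := hcz v v.2
    have a10 : Commute u (w : E) := hcz w w.2
    refine ⟨Finset.mem_univ _, ?_, (a7.mul_right a9).eq, (a8.mul_right a10).eq⟩
    exact ((a6.mul_right a2.symm).mul_left (a3.mul_right a5)).eq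
  · rintro ⟨⟨x, y⟩, ⟨v, w⟩⟩ ht ⟨⟨x', y'⟩, ⟨v', w'⟩⟩ ht' h
    rw [Finset.mem_product, Finset.mem_filter] at ht ht'
    rw [Prod.mk.injEq] at h
    have h1 := huniq x (mem_CG.mp ht.1.2.1).1 x' (mem_CG.mp ht'.1.2.1).1 v v.2 v' v'.2 h.1
    have h2 := huniq y (mem_CG.mp ht.1.2.2.1).1 y' (mem_CG.mp ht'.1.2.2.1).1 w w.2 w' w'.2 h.2
    obtain ⟨e1, e2⟩ := h1
    obtain ⟨e3, e4⟩ := h2
    exact Prod.ext (Prod.ext e1 e3) (Prod.ext (Subtype.ext e2) (Subtype.ext e4))
  · rintro ⟨x, y⟩ hq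
    rw [Finset.mem_filter] at hq
    obtain ⟨-, hxy, hx, hy⟩ := hq
    change y * x = x * y at hxy
    change u * x = x * u at hx
    change u * y = y * u at hy
    obtain ⟨i, hi'⟩ := exists_pow hi hu x
    obtain ⟨j, hj⟩ := exists_pow hi hu y
    have b1 : Commute u x := hx
    have b2 : Commute u y := hy
    have b3 : Commute y x := hxy
    have b4 : ∀ (i j : ℤ), Commute (y * (u ^ j)⁻¹) (x * (u ^ i)⁻¹) := by
      intro i j
      refine Commute.mul_left (Commute.mul_right b3 ?_) (Commute.mul_right ?_ ?_)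
      · exact (b2.zpow_left i).symm.inv_right
      · exact (b1.zpow_left j).inv_left
      · exact (((Commute.refl u).zpow_zpow j i).inv_right).inv_left
    have b5 : ∀ (i : ℤ) (z : E), Commute u z → Commute u (z * (u ^ i)⁻¹) := by
      intro i z hz
      exact hz.mul_right ((Commute.refl u).zpow_right i).inv_right
    refine ⟨((x * (u ^ i)⁻¹, y * (u ^ j)⁻¹), (⟨u ^ i, Subgroup.zpow_mem _ (Subgroup.mem_zpowers u) i⟩,
      ⟨u ^ j, Subgroup.zpow_mem _ (Subgroup.mem_zpowers u) j⟩)), ?_, ?_⟩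
    · rw [Finset.mem_product, Finset.mem_filter]
      exact ⟨⟨Finset.mem_univ _, mem_CG.mpr ⟨hi', (b5 i x b1).eq⟩, mem_CG.mpr ⟨hj, (b5 j y b2).eq⟩,
        (b4 i j).eq⟩, Finset.mem_univ _⟩
    · change (x * (u ^ i)⁻¹ * u ^ i, y * (u ^ j)⁻¹ * u ^ j) = (x, y)
      rw [inv_mul_cancel_right, inv_mul_cancel_right]
  · rintro ⟨⟨x, y⟩, ⟨v, w⟩⟩ ht
    change alt (· ≤ ·) (SS p {x, y} (CG G u) ⊥) =
      alt (· ≤ ·) (SS p {x * (v : E), y * (w : E)} (CG G u) ⊥)
    congr 1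
    have hfix : ∀ (R : Subgroup E), R ≤ CG G u → ∀ v ∈ Subgroup.zpowers u, conjSub v R = R := by
      intro R hR v hv
      exact conj_eq_self fun r hr => hcc v hv r (mem_CG.mp (hR hr)).2
    ext R
    rw [mem_SS, mem_SS]
    refine and_congr_right fun _ => and_congr_right fun _ => and_congr_right fun hR => ?_
    have hv := hfix R hR v v.2
    have hw := hfix R hR w w.2
    constructor
    · rintro h z (rfl | hz)
      · rw [conjSub_mul, hv, h x (by simp)]
      · have hz' : z = y * (w : E) := hz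
        rw [hz', conjSub_mul, hw, h y (by simp)]
    · rintro h z (rfl | hz)
      · have := h (z * (v : E)) (by simp)
        rwa [conjSub_mul, hv] at this
      · have hz' : z = y := hz
        have := h (y * (w : E)) (by simp)
        rw [conjSub_mul, hw] at this
        rw [hz', this]

lemma alt_index_ite (hi : G.index = p) (K : Set E) :
    ((p : ℤ) - 1) * alt (· ≤ ·) (SS p K ⊤ ⊥) = ((p : ℤ) - 1) * alt (· ≤ ·) (SS p K G ⊥) -
      ∑ u ∈ Finset.univ.filter (fun u : E => u ∉ G ∧ orderOf u = p),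
        if ∀ x ∈ K, u * x = x * u then alt (· ≤ ·) (SS p K (CG G u) ⊥) else 0 := by
  rw [alt_index (G := G) hi K, ← Finset.sum_filter, Finset.filter_filter]

/-- **The alternating sum of `E`.** -/
theorem TA_index (hi : G.index = p) :
    ((p : ℤ) - 1) * TA p E = ((p : ℤ) - 1) *
      (∑ q ∈ Finset.univ.filter (fun q : E × E => q.2 * q.1 = q.1 * q.2),
        alt (· ≤ ·) (SS p {q.1, q.2} G ⊥)) -
      (p : ℤ) ^ 2 * ∑ u ∈ Finset.univ.filter (fun u : E => u ∉ G ∧ orderOf u = p),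
        TA p (CG G u) := by
  rw [TA_type, Finset.mul_sum,
    Finset.sum_congr rfl fun q _ => alt_index_ite (G := G) hi {q.1, q.2},
    Finset.sum_sub_distrib, ← Finset.mul_sum]
  congr 1
  rw [Finset.mul_sum, Finset.sum_comm]
  refine Finset.sum_congr rfl fun u hu => ?_
  rw [Finset.mem_filter] at hu
  rw [← sum_cent hi hu.2.1 hu.2.2]
  refine Eq.trans (Finset.sum_congr rfl (g := fun q : E × E =>
    if u * q.1 = q.1 * u ∧ u * q.2 = q.2 * u then
      alt (· ≤ ·) (SS p {q.1, q.2} (CG G u) ⊥) else 0) fun q _ => ?_) ?_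
  · have key : (∀ x ∈ ({q.1, q.2} : Set E), u * x = x * u) ↔
        u * q.1 = q.1 * u ∧ u * q.2 = q.2 * u := by
      constructor
      · intro h
        exact ⟨h q.1 (by simp), h q.2 (by simp)⟩
      · rintro ⟨h1, h2⟩ z (rfl | hz)
        · exact h1
        · have hz' : z = q.2 := hz
          rw [hz']
          exact h2
    by_cases h : u * q.1 = q.1 * u ∧ u * q.2 = q.2 * u
    · rw [if_pos h, if_pos (key.mpr h)]
    · rw [if_neg h, if_neg (fun h1 => h (key.mp h1))]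
  · rw [← Finset.sum_filter, Finset.filter_filter]

end Pool.Agent.Q100.PX
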