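import Pool.Agent.Q100.PX.Sum

set_option autoImplicit false
set_option linter.unusedSectionVars false

/-!
# Normal subgroups of index `p`: the sums over the pairs of cosets
-/

open scoped Classical BigOperators
open Pool.Agent.Helper884.IC Pool.Agent.Y63.KR
open Pool.Agent.Q100.IV Pool.Agent.Q100.CQ

noncomputable section

namespace Pool.Agent.Q100.PX

variable {E : Type} [Group E] {p : ℕ} {G : Subgroup E} [hG : G.Normal]
variable [Finite E] [Fintype E] [hp : Fact p.Prime]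

/-- the sum over two cosets -/
def NF (G : Subgroup E) [G.Normal] (F : E → E → ℂ) (a b : E ⧸ G) : ℂ :=
  ∑ q ∈ Finset.univ.filter (fun q : E × E => (q.1 : E ⧸ G) = a ∧ (q.2 : E ⧸ G) = b), F q.1 q.2

theorem NF_sym {F : E → E → ℂ} (h1 : ∀ x y, F x (y * x) = F x y) (h2 : ∀ x y, F y x⁻¹ = F x y) :
    Sym (NF G F) where
  mul a b := by
    unfold NF
    refine Finset.sum_bij' (fun q _ => (q.1, q.2 * q.1⁻¹)) (fun q _ => (q.1, q.2 * q.1)) ?_ ?_ ?_ ?_ ?_
    · intro q hq
      rw [Finset.mem_filter] at hq ⊢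
      refine ⟨Finset.mem_univ _, hq.2.1, ?_⟩
      change ((q.2 * q.1⁻¹ : E) : E ⧸ G) = b
      rw [QuotientGroup.mk_mul, QuotientGroup.mk_inv, hq.2.1, hq.2.2, mul_inv_cancel_right]
    · intro q hq
      rw [Finset.mem_filter] at hq ⊢
      refine ⟨Finset.mem_univ _, hq.2.1, ?_⟩
      change ((q.2 * q.1 : E) : E ⧸ G) = b * a
      rw [QuotientGroup.mk_mul, hq.2.1, hq.2.2]
    · intro q _
      simp
    · intro q _
      simp
    · intro q _
      change F q.1 q.2 = F q.1 (q.2 * q.1⁻¹)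
      rw [← h1 q.1 (q.2 * q.1⁻¹), inv_mul_cancel_right]
  rot a b := by
    unfold NF
    refine Finset.sum_bij' (fun q _ => (q.2⁻¹, q.1)) (fun q _ => (q.2, q.1⁻¹)) ?_ ?_ ?_ ?_ ?_
    · intro q hq
      rw [Finset.mem_filter] at hq ⊢
      refine ⟨Finset.mem_univ _, ?_, hq.2.1⟩
      change ((q.2⁻¹ : E) : E ⧸ G) = a
      rw [QuotientGroup.mk_inv, hq.2.2, inv_inv]
    · intro q hq
      rw [Finset.mem_filter] at hq ⊢
      refine ⟨Finset.mem_univ _, hq.2.2, ?_⟩
      change ((q.1⁻¹ : E) : E ⧸ G) = a⁻¹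
      rw [QuotientGroup.mk_inv, hq.2.1]
    · intro q _
      simp
    · intro q _
      simp
    · intro q _
      change F q.1 q.2 = F q.2⁻¹ q.1
      rw [← h2 q.2⁻¹ q.1, inv_inv]

lemma closure_top (hi : G.index = p) {a b : E ⧸ G} (h : ¬ (a = 1 ∧ b = 1)) :
    Subgroup.closure ({a, b} : Set (E ⧸ G)) = ⊤ := by
  have key : ∀ c ∈ ({a, b} : Set (E ⧸ G)), c ≠ 1 → Subgroup.closure ({a, b} : Set (E ⧸ G)) = ⊤ := by
    intro c hc h1
    rw [eq_top_iff, ← zpowers_eq_top_of_prime_card (G := E ⧸ G) (p := p) hi h1,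
      Subgroup.zpowers_le]
    exact Subgroup.subset_closure hc
  by_cases ha : a = 1
  · exact key b (by simp) (fun hb => h ⟨ha, hb⟩)
  · exact key a (by simp) ha

/-- **The sum over all pairs.** -/
theorem total [Fintype (E ⧸ G)] (hi : G.index = p) {F : E → E → ℂ} (h1 : ∀ x y, F x (y * x) = F x y)
    (h2 : ∀ x y, F y x⁻¹ = F x y) :
    ((p : ℂ) - 1) * ∑ q : E × E, F q.1 q.2 = ((p : ℂ) - 1) * NF G F 1 1 +
      ((p : ℂ) ^ 2 - 1) * ∑ g ∈ (Finset.univ : Finset (E ⧸ G)).erase 1, NF G F 1 g := by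
  have hs := NF_sym (G := G) h1 h2
  have hcard : Fintype.card (E ⧸ G) = p := by rw [← Nat.card_eq_fintype_card]; exact hi
  obtain ⟨g₀, hg₀⟩ : ∃ g₀ : E ⧸ G, g₀ ≠ 1 := by
    have : Nontrivial (E ⧸ G) := Fintype.one_lt_card_iff_nontrivial.mp (by rw [hcard]; exact hp.out.one_lt)
    exact exists_ne 1
  have hz : Subgroup.zpowers g₀ = ⊤ := zpowers_eq_top_of_prime_card (G := E ⧸ G) (p := p) hi hg₀
  have hN : ∀ a b : E ⧸ G, ¬ (a = 1 ∧ b = 1) → NF G F a b = NF G F 1 g₀ := by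
    intro a b hab
    exact hs.gen (by rw [closure_top hi hab, hz])
  have e1 : ∑ q : E × E, F q.1 q.2 = ∑ t : (E ⧸ G) × (E ⧸ G), NF G F t.1 t.2 := by
    rw [← Finset.sum_fiberwise_of_maps_to (g := fun q : E × E => ((q.1 : E ⧸ G), (q.2 : E ⧸ G)))
      (t := Finset.univ) (fun _ _ => Finset.mem_univ _)]
    refine Finset.sum_congr rfl fun t _ => ?_
    unfold NF
    refine Finset.sum_congr ?_ fun _ _ => rfl
    ext q
    rw [Finset.mem_filter, Finset.mem_filter]
    refine and_congr_right fun _ => ?_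
    constructor
    · intro h
      exact ⟨congrArg Prod.fst h, congrArg Prod.snd h⟩
    · rintro ⟨h, h'⟩
      exact Prod.ext h h'
  have e2 : ∑ t : (E ⧸ G) × (E ⧸ G), NF G F t.1 t.2 =
      NF G F 1 1 + ((p : ℂ) ^ 2 - 1) * NF G F 1 g₀ := by
    rw [← Finset.add_sum_erase _ _ (Finset.mem_univ ((1, 1) : (E ⧸ G) × (E ⧸ G)))]
    congr 1
    rw [Finset.sum_congr rfl (g := fun _ => NF G F 1 g₀), Finset.sum_const, nsmul_eq_mul,
      Finset.card_erase_of_mem (Finset.mem_univ _), Finset.card_univ, Fintype.card_prod, hcard]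
    · congr 1
      have : 1 ≤ p * p := Nat.one_le_iff_ne_zero.mpr (mul_ne_zero hp.out.ne_zero hp.out.ne_zero)
      rw [Nat.cast_sub this]
      push_cast
      ring
    · intro t ht
      refine hN t.1 t.2 fun h => ?_
      rw [Finset.mem_erase] at ht
      exact ht.1 (Prod.ext h.1 h.2)
  have e3 : ∑ g ∈ (Finset.univ : Finset (E ⧸ G)).erase 1, NF G F 1 g = ((p : ℂ) - 1) * NF G F 1 g₀ := by
    rw [Finset.sum_congr rfl (g := fun _ => NF G F 1 g₀), Finset.sum_const, nsmul_eq_mul,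
      Finset.card_erase_of_mem (Finset.mem_univ _), Finset.card_univ, hcard]
    · congr 1
      rw [Nat.cast_sub hp.out.one_lt.le]
      push_cast
      ring
    · intro g hg
      refine hN 1 g fun h => ?_
      rw [Finset.mem_erase] at hg
      exact hg.1 h.2
  rw [e1, e2, e3]
  ring

/-- the weight of a pair -/
def AA (p : ℕ) (G : Subgroup E) (x y : E) : ℂ :=
  if y * x = x * y then (alt (· ≤ ·) (SS p ({x, y} : Set E) G ⊥) : ℂ) else 0

lemma aa_mul (x y : E) : AA p G x (y * x) = AA p G x y := by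
  unfold AA
  rw [SS_mul]
  have h2 : (y * x * x = x * (y * x)) ↔ y * x = x * y := by
    rw [← mul_assoc x y x]
    exact mul_left_inj x
  by_cases h3 : y * x = x * y
  · rw [if_pos h3, if_pos (h2.mpr h3)]
  · rw [if_neg h3, if_neg (fun h4 => h3 (h2.mp h4))]

lemma aa_rot (x y : E) : AA p G y x⁻¹ = AA p G x y := by
  unfold AA
  rw [SS_rot]
  have h2 : (x⁻¹ * y = y * x⁻¹) ↔ y * x = x * y := by
    constructor
    · intro h
      calc y * x = x * (x⁻¹ * y) * x := by group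
        _ = x * (y * x⁻¹) * x := by rw [h]
        _ = x * y := by group
    · intro h
      calc x⁻¹ * y = x⁻¹ * (y * x) * x⁻¹ := by group
        _ = x⁻¹ * (x * y) * x⁻¹ := by rw [h]
        _ = y * x⁻¹ := by group
  by_cases h3 : y * x = x * y
  · rw [if_pos h3, if_pos (h2.mpr h3)]
  · rw [if_neg h3, if_neg (fun h4 => h3 (h2.mp h4))]

lemma NF_AA {e : E} {a : ℕ} (he : orderOf (e : E ⧸ G) = p ^ a) :
    NF G (AA p G) 1 (e : E ⧸ G) =
      ∑ u ∈ Finset.univ.filter (fun u : E => (u : E ⧸ G) = (e : E ⧸ G) ∧ orderOf u = p ^ a),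
        (TA p (CG G u) : ℂ) := by
  have h1 := congrArg (Int.cast : ℤ → ℂ) (pairs_split (p := p) (G := G) he)
  push_cast at h1
  unfold NF AA
  rw [← Finset.sum_filter, Finset.filter_filter]
  have e1 : ∀ u : E, (u * e⁻¹ ∈ G ↔ (u : E ⧸ G) = (e : E ⧸ G)) := fun u => coset_iff
  have e2 : Finset.univ.filter (fun q : E × E => ((q.1 : E ⧸ G) = 1 ∧ (q.2 : E ⧸ G) = (e : E ⧸ G)) ∧
      q.2 * q.1 = q.1 * q.2) = Finset.univ.filter (fun q : E × E => q.1 ∈ G ∧ q.2 * e⁻¹ ∈ G ∧
        q.2 * q.1 = q.1 * q.2) := by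
    ext q
    rw [Finset.mem_filter, Finset.mem_filter, QuotientGroup.eq_one_iff, e1, and_assoc]
  have e3 : Finset.univ.filter (fun u : E => (u : E ⧸ G) = (e : E ⧸ G) ∧ orderOf u = p ^ a) =
      Finset.univ.filter (fun u : E => u * e⁻¹ ∈ G ∧ orderOf u = p ^ a) := by
    ext u
    rw [Finset.mem_filter, Finset.mem_filter, e1]
  rw [e2, e3, h1]
  refine Finset.sum_congr rfl fun u _ => ?_
  unfold TA
  push_cast
  rfl

lemma order_of_ne (hi : G.index = p) {g : E ⧸ G} (hg : g ≠ 1) : orderOf g = p := by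
  have h1 : orderOf g ∣ Nat.card (E ⧸ G) := orderOf_dvd_natCard g
  have h2 : Nat.card (E ⧸ G) = p := hi
  rw [h2] at h1
  rcases (Nat.dvd_prime hp.out).mp h1 with h3 | h3
  · exact absurd (orderOf_eq_one_iff.mp h3) hg
  · exact h3

lemma CG_one : CG G (1 : E) = G := by
  unfold CG
  rw [inf_eq_left]
  intro x _
  rw [Subgroup.mem_centralizer_iff]
  rintro y rfl
  rw [one_mul, mul_one]

/-- summation over the cosets -/
lemma sum_cosets [Fintype (E ⧸ G)] (hi : G.index = p) (f : E → ℂ) :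
    ∑ g ∈ (Finset.univ : Finset (E ⧸ G)).erase 1,
      ∑ u ∈ Finset.univ.filter (fun u : E => (u : E ⧸ G) = g ∧ orderOf u = p), f u =
      ∑ u ∈ Finset.univ.filter (fun u : E => u ∉ G ∧ orderOf u = p), f u := by
  rw [← Finset.sum_fiberwise_of_maps_to (s := Finset.univ.filter (fun u : E => u ∉ G ∧ orderOf u = p))
    (g := fun u : E => (u : E ⧸ G)) (t := (Finset.univ : Finset (E ⧸ G)).erase 1)]
  · refine Finset.sum_congr rfl fun g hg => Finset.sum_congr ?_ fun _ _ => rfl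
    ext u
    rw [Finset.mem_filter, Finset.mem_filter, Finset.mem_filter]
    rw [Finset.mem_erase] at hg
    constructor
    · rintro ⟨-, h1, h2⟩
      exact ⟨⟨Finset.mem_univ _, fun h => hg.1 (by rw [← h1]; exact (QuotientGroup.eq_one_iff u).mpr h),
        h2⟩, h1⟩
    · rintro ⟨⟨-, -, h1⟩, h2⟩
      exact ⟨Finset.mem_univ _, h2, h1⟩
  · intro u hu
    rw [Finset.mem_filter] at hu
    rw [Finset.mem_erase]
    exact ⟨fun h => hu.2.1 ((QuotientGroup.eq_one_iff u).mp h), Finset.mem_univ _⟩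

/-- **The alternating sums of `E` and `G`.** -/
theorem TA_formula (hi : G.index = p) :
    ((p : ℤ) - 1) * TA p E = ((p : ℤ) - 1) * TA p G -
      ∑ u ∈ Finset.univ.filter (fun u : E => u ∉ G ∧ orderOf u = p), TA p (CG G u) := by
  have : Fintype (E ⧸ G) := Fintype.ofFinite _
  have h1 := total (G := G) hi (aa_mul (p := p) (G := G)) (aa_rot (p := p) (G := G))
  have h2 := congrArg (Int.cast : ℤ → ℂ) (TA_index (p := p) (G := G) hi)
  push_cast at h2
  have h3 : ∑ q : E × E, AA p G q.1 q.2 =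
      ∑ q ∈ Finset.univ.filter (fun q : E × E => q.2 * q.1 = q.1 * q.2),
        (alt (· ≤ ·) (SS p ({q.1, q.2} : Set E) G ⊥) : ℂ) := by
    unfold AA
    rw [← Finset.sum_filter]
  have h4 : NF G (AA p G) 1 1 = (TA p G : ℂ) := by
    have h5 := NF_AA (p := p) (G := G) (e := 1) (a := 0) (by
      rw [QuotientGroup.mk_one, orderOf_one, pow_zero])
    rw [QuotientGroup.mk_one] at h5
    rw [h5, Finset.sum_eq_single 1]
    · rw [CG_one]
    · intro u hu hne
      rw [Finset.mem_filter, pow_zero, orderOf_eq_one_iff] at hu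
      exact absurd hu.2.2 hne
    · intro h
      refine absurd (Finset.mem_filter.mpr ⟨Finset.mem_univ _, rfl, ?_⟩) h
      rw [orderOf_one, pow_zero]
  have h5 : ∑ g ∈ (Finset.univ : Finset (E ⧸ G)).erase 1, NF G (AA p G) 1 g =
      ∑ u ∈ Finset.univ.filter (fun u : E => u ∉ G ∧ orderOf u = p), (TA p (CG G u) : ℂ) := by
    rw [← sum_cosets hi]
    refine Finset.sum_congr rfl fun g hg => ?_
    obtain ⟨e, rfl⟩ := QuotientGroup.mk_surjective g
    have h6 := NF_AA (p := p) (G := G) (e := e) (a := 1) (by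
      rw [pow_one]; exact order_of_ne hi (Finset.mem_erase.mp hg).1)
    rw [pow_one] at h6
    exact h6
  rw [h3, h4, h5] at h1
  have h6 : ((p : ℂ) - 1) * (TA p E : ℂ) = ((p : ℂ) - 1) * (TA p G : ℂ) -
      ∑ u ∈ Finset.univ.filter (fun u : E => u ∉ G ∧ orderOf u = p), (TA p (CG G u) : ℂ) := by
    rw [h2, h1]
    ring
  exact_mod_cast h6

end Pool.Agent.Q100.PX
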