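import Pool.Agent.Q100.PX.Tor

set_option autoImplicit false
set_option linter.unusedSectionVars false

/-!
# Characters of defect zero of a group with a normal subgroup of index `p`
-/

open scoped Classical BigOperators
open Pool.Agent.Helper884.IC Pool.Agent.Y63.KR
open Pool.Agent.Y63.AWC hiding DZ
open Pool.Agent.Q100.IV Pool.Agent.Q100.CQ

noncomputable section

namespace Pool.Agent.Q100.PX

section

variable {K M : Type} [Group K] [Group M] [Fintype K] [Fintype M]
variable {ι : K →* M} {α : M → K ≃* K} {p : ℕ}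

/-- the degrees, with the length of the orbit -/
theorem degree' (h : CJ ι α) [ι.range.Normal] (hab : ∀ x y : M, x * y * x⁻¹ * y⁻¹ ∈ ι.range)
    {χ : M → ℂ} (hχ : IsIrrChar χ) {θ : K → ℂ} (hθ : IsIrrChar θ) (hm : mlt ι θ χ ≠ 0) :
    ∃ s : ℕ, s ∣ Nat.card (M ⧸ ι.range) ∧
      χ 1 ^ 2 = ((orb α θ).card : ℂ) * s * θ 1 ^ 2 := by
  obtain ⟨s, hs, hB⟩ := norm_res h hab hχ
  refine ⟨s, hs, ?_⟩
  have hcl := res_class h hχ.isClass
  rw [B_expand _ _ hcl] at hB
  have h1 : ∑ ψ ∈ Irr K, B (fun x => χ (ι x)) ψ * B ψ (fun x => χ (ι x)) =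
      ((orb α θ).card : ℂ) * (mlt ι θ χ) ^ 2 := by
    rw [← Finset.sum_subset (orb_irr (α := α) hθ)]
    · rw [Finset.sum_congr rfl (g := fun _ => (mlt ι θ χ) ^ 2), Finset.sum_const, nsmul_eq_mul]
      intro θ'' h''
      obtain ⟨y, rfl⟩ := mem_orb.mp h''
      rw [B_comm (fun x => χ (ι x))]
      have := mlt_conj h θ hχ.isClass y
      unfold mlt at this
      rw [this]
      unfold mlt
      ring
    · intro ψ hψ hn
      rw [B_comm (fun x => χ (ι x))]
      have : mlt ι ψ χ = 0 := by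
        by_contra h2
        exact hn (clifford h hχ hθ (mem_Irr.mp hψ) hm h2)
      unfold mlt at this
      rw [this, mul_zero]
  have h2 : SS' ι (Irr K) χ = ((orb α θ).card : ℂ) * (θ 1 * mlt ι θ χ) := by
    unfold SS'
    rw [← Finset.sum_subset (orb_irr (α := α) hθ)]
    · rw [Finset.sum_congr rfl (g := fun _ => θ 1 * mlt ι θ χ), Finset.sum_const, nsmul_eq_mul]
      intro θ'' h''
      obtain ⟨y, rfl⟩ := mem_orb.mp h''
      rw [mlt_conj h θ hχ.isClass y]
      simp only [map_one]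
    · intro ψ hψ hn
      have : mlt ι ψ χ = 0 := by
        by_contra h2
        exact hn (clifford h hχ hθ (mem_Irr.mp hψ) hm h2)
      rw [this, mul_zero]
  rw [SS_all χ hcl] at h2
  rw [h1] at hB
  rw [h2, ← hB]
  ring



variable [hp : Fact p.Prime]

/-- the characters of defect zero which are not invariant -/
def nin (p : ℕ) (α : M → K ≃* K) : Finset (K → ℂ) :=
  (dzf p K).filter (fun θ => ¬ ∀ (y : M) (x : K), θ (α y x) = θ x)

lemma nin_sub : nin p α ⊆ Irr K := (Finset.filter_subset _ _).trans dzf_sub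

lemma nin_stab (h : CJ ι α) : Stab α (nin p α) := by
  intro y θ hθ
  unfold nin at hθ ⊢
  rw [Finset.mem_filter] at hθ ⊢
  refine ⟨dzf_stab (α := α) y θ hθ.1, fun hinv => hθ.2 fun z x => ?_⟩
  have h1 := hinv (y⁻¹ * z * y) (α y⁻¹ x)
  change θ (α y (α (y⁻¹ * z * y) (α y⁻¹ x))) = θ (α y (α y⁻¹ x)) at h1
  rw [← h.mul, ← h.mul, ← h.mul, mul_inv_cancel, h.one] at h1
  have e : y * (y⁻¹ * z * y) * y⁻¹ = z := by group
  rwa [e] at h1

lemma orb_card_one (h : CJ ι α) {θ : K → ℂ} :
    (orb α θ).card = 1 ↔ ∀ (y : M) (x : K), θ (α y x) = θ x := by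
  rw [Finset.card_eq_one]
  constructor
  · rintro ⟨η, hη⟩ y x
    have h1 : θ ∈ orb α θ := self_mem_orb h θ
    have h2 : (fun x => θ (α y x)) ∈ orb α θ := mem_orb.mpr ⟨y, rfl⟩
    rw [hη, Finset.mem_singleton] at h1 h2
    have h3 := congrFun (h2.trans h1.symm) x
    exact h3
  · intro hinv
    refine ⟨θ, ?_⟩
    ext η
    rw [mem_orb, Finset.mem_singleton]
    constructor
    · rintro ⟨y, rfl⟩
      funext x
      exact hinv y x
    · rintro rfl
      exact ⟨1, funext fun x => hinv 1 x⟩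

lemma dz_iff' (h : CJ ι α) [ι.range.Normal] (hab : ∀ x y : M, x * y * x⁻¹ * y⁻¹ ∈ ι.range)
    (hQ : Nat.card (M ⧸ ι.range) = p)
    {χ : M → ℂ} (hχ : IsIrrChar χ) {θ : K → ℂ} (hθ : IsIrrChar θ) (hm : mlt ι θ χ ≠ 0) :
    DZ p χ ↔ θ ∈ nin p α := by
  obtain ⟨s, hs, hd⟩ := degree' h hab hχ hθ hm
  have ht := orb_card h (α := α) hθ.isClass
  have hone := orb_card_one h (θ := θ)
  obtain ⟨n, hn, hn1⟩ := deg_nat hχ
  obtain ⟨k, hk, hk1⟩ := deg_nat hθ
  have hkd := deg_dvd hθ hk1
  generalize (orb α θ).card = t at hd ht hone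
  rw [hQ] at hs ht
  rw [hn1, hk1] at hd
  have hd' : n ^ 2 = t * s * k ^ 2 := by exact_mod_cast hd
  have hp0 := hp.out.ne_zero
  have hs0 : s ≠ 0 := by rintro rfl; exact hp0 (Nat.eq_zero_of_zero_dvd hs)
  have ht0 : t ≠ 0 := by rintro rfl; exact hp0 (Nat.eq_zero_of_zero_dvd ht)
  have hf : 2 * n.factorization p = t.factorization p + s.factorization p + 2 * k.factorization p := by
    have h1 : (n ^ 2).factorization p = (t * s * k ^ 2).factorization p := by rw [hd']
    rw [Nat.factorization_pow, Nat.factorization_mul (mul_ne_zero ht0 hs0) (pow_ne_zero _ hk.ne'),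
      Nat.factorization_mul ht0 hs0, Nat.factorization_pow] at h1
    simp only [Finsupp.coe_add, Pi.add_apply, Finsupp.smul_apply, smul_eq_mul] at h1
    exact h1
  have hc : (Nat.card M).factorization p = (Nat.card K).factorization p + 1 := by
    have h1 := Subgroup.card_eq_card_quotient_mul_card_subgroup ι.range
    have h2 : Nat.card ι.range = Nat.card K :=
      (Nat.card_congr (MonoidHom.ofInjective h.inj).toEquiv).symm
    rw [h2, hQ] at h1
    rw [h1, Nat.factorization_mul hp0 Nat.card_pos.ne', Finsupp.coe_add, Pi.add_apply,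
      Nat.Prime.factorization_self hp.out, add_comm]
  have hk2 : k.factorization p ≤ (Nat.card K).factorization p :=
    (Nat.factorization_le_iff_dvd hk.ne' Nat.card_pos.ne').mpr hkd p
  have hcase : ∀ m : ℕ, m ∣ p → (m = 1 ∧ m.factorization p = 0) ∨ (m = p ∧ m.factorization p = 1) := by
    intro m hm
    rcases (Nat.dvd_prime hp.out).mp hm with rfl | rfl
    · exact Or.inl ⟨rfl, by simp⟩
    · exact Or.inr ⟨rfl, Nat.Prime.factorization_self hp.out⟩
  have hp1 := hp.out.one_lt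
  have e1 : DZ p χ ↔ n.factorization p = (Nat.card M).factorization p := by
    constructor
    · rintro ⟨n', h1, h2⟩
      rw [hn1] at h1
      have h3 : n = n' := by exact_mod_cast h1
      rw [h3, h2]
    · intro h1
      exact ⟨n, hn1, h1⟩
  have e2 : DZ p θ ↔ k.factorization p = (Nat.card K).factorization p := by
    constructor
    · rintro ⟨n', h1, h2⟩
      rw [hk1] at h1
      have h3 : k = n' := by exact_mod_cast h1
      rw [h3, h2]
    · intro h1
      exact ⟨k, hk1, h1⟩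
  unfold nin
  rw [Finset.mem_filter, mem_dzf, e1, e2, ← hone, hc]
  rcases hcase s hs with ⟨hs1, hs2⟩ | ⟨hs1, hs2⟩ <;> rcases hcase t ht with ⟨ht1, ht2⟩ | ⟨ht1, ht2⟩ <;>
    rw [hs2, ht2] at hf
  · constructor
    · intro h1
      omega
    · rintro ⟨-, h1⟩
      exact absurd ht1 h1
  · constructor
    · intro h1
      omega
    · rintro ⟨⟨-, h1⟩, h2⟩
      omega
  · constructor
    · intro h1
      omega
    · rintro ⟨-, h1⟩
      exact absurd ht1 h1
  · constructor
    · intro h1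
      exact ⟨⟨hθ, by omega⟩, by omega⟩
    · rintro ⟨⟨-, h1⟩, h2⟩
      omega

/-- **The idempotents agree.** -/
theorem FT_eq' (h : CJ ι α) [ι.range.Normal] (hab : ∀ x y : M, x * y * x⁻¹ * y⁻¹ ∈ ι.range)
    (hQ : Nat.card (M ⧸ ι.range) = p) (z : M) :
    (Nat.card M : ℂ) * push ι (FT (nin p α)) z = (Nat.card K : ℂ) * FT (dzf p M) z := by
  have hM := cardG_ne (G := M)
  have hK := cardG_ne (G := K)
  have key : (Nat.card M : ℂ) • push ι (FT (nin p α)) - (Nat.card K : ℂ) • FT (dzf p M) = 0 := by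
    refine class_eq_zero _ ?_ ?_
    · intro x y
      have h1 := push_class h (nin_stab (p := p) h) x y
      have h2 := FT_class (dzf_sub (p := p) (H := M)) x y
      simp only [Pi.sub_apply, Pi.smul_apply]
      rw [h1, h2]
    · intro χ hχ
      rw [B_sub_left, B_smul_left, B_smul_left]
      have h1 : B (push ι (FT (nin p α))) χ = (Nat.card M : ℂ)⁻¹ *
          ((Nat.card K : ℂ) * SS' ι (nin p α) χ) := by
        unfold B
        rw [SS_eq]
      have h2 : B (FT (dzf p M)) χ = if DZ p χ then χ 1 else 0 := by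
        have e1 : FT (dzf p M) = ∑ ψ ∈ dzf p M, ψ 1 • ψ := by
          funext x
          unfold FT
          rw [Finset.sum_apply]
          rfl
        rw [e1, B_sum_left]
        have e2 : ∀ ψ ∈ dzf p M, B (ψ 1 • ψ) χ = if ψ = χ then χ 1 else 0 := by
          intro ψ hψ
          rw [B_smul_left, B_irr (mem_dzf.mp hψ).1 hχ]
          by_cases h3 : ψ = χ
          · rw [if_pos h3, if_pos h3, h3, mul_one]
          · rw [if_neg h3, if_neg h3, mul_zero]
        rw [Finset.sum_congr rfl e2, Finset.sum_ite_eq' (dzf p M) χ]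
        by_cases h3 : DZ p χ
        · rw [if_pos h3, if_pos (mem_dzf.mpr ⟨hχ, h3⟩)]
        · rw [if_neg h3, if_neg (fun h4 => h3 (mem_dzf.mp h4).2)]
      have h3 : SS' ι (nin p α) χ = if DZ p χ then χ 1 else 0 := by
        by_cases h4 : DZ p χ
        · rw [if_pos h4, ← SS_all χ (res_class h hχ.isClass)]
          unfold SS'
          refine Finset.sum_subset nin_sub fun θ hθ hn => ?_
          have : mlt ι θ χ = 0 := by
            by_contra h5
            have hθ' := mem_Irr.mp hθ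
            exact hn ((dz_iff' h hab hQ hχ hθ' h5).mp h4)
          rw [this, mul_zero]
        · rw [if_neg h4]
          unfold SS'
          refine Finset.sum_eq_zero fun θ hθ => ?_
          have hθ' := mem_Irr.mp (nin_sub hθ)
          have : mlt ι θ χ = 0 := by
            by_contra h5
            exact h4 ((dz_iff' h hab hQ hχ hθ' h5).mpr hθ)
          rw [this, mul_zero]
      rw [h1, h2, h3]
      field_simp
      ring
  have := congrFun key z
  simp only [Pi.sub_apply, Pi.smul_apply, smul_eq_mul, Pi.zero_apply] at this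
  exact sub_eq_zero.mp this


end

section

variable {E : Type} [Group E] [Finite E] [Fintype E] {p : ℕ} [hp : Fact p.Prime]

/-- the sum over the cosets, for a set of characters -/
theorem sum_push_comm (N : Subgroup E) [N.Normal] [Fintype N] {Θ : Finset (N → ℂ)} (hΘ : Θ ⊆ Irr N)
    (e : E) :
    ∑ q ∈ Finset.univ.filter (fun q : E × E => q.1 ∈ N ∧ q.2 * e⁻¹ ∈ N),
      push N.subtype (FT Θ) (q.1 * q.2 * q.1⁻¹ * q.2⁻¹) =
      (Nat.card N : ℂ) ^ 2 * ((Θ.filter (fun θ => ∀ x, θ (cjN N e x) = θ x)).card : ℂ) := by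
  have hN := cardG_ne (G := N)
  have h1 : ∑ q ∈ Finset.univ.filter (fun q : E × E => q.1 ∈ N ∧ q.2 * e⁻¹ ∈ N),
      push N.subtype (FT Θ) (q.1 * q.2 * q.1⁻¹ * q.2⁻¹) =
      ∑ t : N × N, FT Θ (t.1 * (t.2 * (cjN N e t.1)⁻¹ * t.2⁻¹)) := by
    symm
    refine Finset.sum_bij (fun t _ => ((t.1 : E), (t.2 : E) * e)) ?_ ?_ ?_ ?_
    · intro t _
      rw [Finset.mem_filter]
      refine ⟨Finset.mem_univ _, t.1.2, ?_⟩
      change (t.2 : E) * e * e⁻¹ ∈ N
      rw [mul_inv_cancel_right]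
      exact t.2.2
    · rintro ⟨a, b⟩ _ ⟨a', b'⟩ _ h
      have h2 : (a : E) = a' := congrArg Prod.fst h
      have h3 : (b : E) * e = b' * e := congrArg Prod.snd h
      rw [Subtype.ext h2, Subtype.ext (mul_right_cancel h3)]
    · rintro ⟨x, y⟩ hq
      rw [Finset.mem_filter] at hq
      refine ⟨(⟨x, hq.2.1⟩, ⟨y * e⁻¹, hq.2.2⟩), Finset.mem_univ _, ?_⟩
      change (x, y * e⁻¹ * e) = (x, y)
      rw [inv_mul_cancel_right]
    · rintro ⟨x, g⟩ _
      have h2 : (x : E) * ((g : E) * e) * (x : E)⁻¹ * ((g : E) * e)⁻¹ =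
          N.subtype (x * (g * (cjN N e x)⁻¹ * g⁻¹)) := by
        change _ = (x : E) * ((g : E) * (e * x * e⁻¹)⁻¹ * (g : E)⁻¹)
        group
      change _ = push N.subtype (FT Θ) ((x : E) * ((g : E) * e) * (x : E)⁻¹ * ((g : E) * e)⁻¹)
      rw [h2, push_apply (ι := N.subtype) Subtype.val_injective]
  rw [h1, Fintype.sum_prod_type]
  unfold FT
  have h2 : ∀ x : N, ∑ g : N, (∑ θ ∈ Θ, θ 1 * θ (x * (g * (cjN N e x)⁻¹ * g⁻¹))) =
      ∑ θ ∈ Θ, (Nat.card N : ℂ) * (θ x * θ (cjN N e x)⁻¹) := by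
    intro x
    rw [Finset.sum_comm]
    refine Finset.sum_congr rfl fun θ hθ => ?_
    have h3 := mul_formula (mem_Irr.mp (hΘ hθ)) x (cjN N e x)⁻¹
    rw [← Finset.mul_sum, mul_comm, h3]
  rw [Finset.sum_congr rfl fun x _ => h2 x, Finset.sum_comm]
  have h3 : ∀ θ ∈ Θ, ∑ x : N, (Nat.card N : ℂ) * (θ x * θ (cjN N e x)⁻¹) =
      if (∀ x, θ (cjN N e x) = θ x) then (Nat.card N : ℂ) ^ 2 else 0 := by
    intro θ hθ
    have hθ' := mem_Irr.mp (hΘ hθ)
    have h4 := B_irr hθ' (irr_comp (cjN N e) hθ')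
    unfold B at h4
    have h5 : ∑ x : N, θ x * θ (cjN N e x)⁻¹ =
        (Nat.card N : ℂ) * ((Nat.card N : ℂ)⁻¹ * ∑ g : N, θ g * θ (cjN N e g⁻¹)) := by
      rw [← mul_assoc, mul_inv_cancel₀ hN, one_mul]
      refine Finset.sum_congr rfl fun x _ => ?_
      rw [map_inv]
    rw [← Finset.mul_sum, h5, h4]
    by_cases h6 : ∀ x, θ (cjN N e x) = θ x
    · rw [if_pos h6, if_pos (funext fun x => (h6 x).symm), mul_one, sq]
    · rw [if_neg h6, if_neg (fun h7 => h6 fun x => (congrFun h7 x).symm), mul_zero, mul_zero]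
  rw [Finset.sum_congr rfl h3, ← Finset.sum_filter, Finset.sum_const, nsmul_eq_mul]
  ring

/-- the sum over all pairs of the whole group -/
theorem sum_FT_comm {Θ : Finset (E → ℂ)} (hΘ : Θ ⊆ Irr E) :
    ∑ q : E × E, FT Θ (q.1 * q.2 * q.1⁻¹ * q.2⁻¹) = (Nat.card E : ℂ) ^ 2 * (Θ.card : ℂ) := by
  rw [Fintype.sum_prod_type]
  unfold FT
  have h2 : ∀ x : E, ∑ g : E, (∑ θ ∈ Θ, θ 1 * θ (x * g * x⁻¹ * g⁻¹)) =
      ∑ θ ∈ Θ, (Nat.card E : ℂ) * (θ x * θ x⁻¹) := by
    intro x
    rw [Finset.sum_comm]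
    refine Finset.sum_congr rfl fun θ hθ => ?_
    have h3 := mul_formula (mem_Irr.mp (hΘ hθ)) x x⁻¹
    rw [← Finset.mul_sum, mul_comm, ← h3]
    congr 1
    refine Finset.sum_congr rfl fun g _ => ?_
    congr 1
    group
  rw [Finset.sum_congr rfl fun x _ => h2 x, Finset.sum_comm]
  have hE := cardG_ne (G := E)
  have h3 : ∀ θ ∈ Θ, ∑ x : E, (Nat.card E : ℂ) * (θ x * θ x⁻¹) = (Nat.card E : ℂ) ^ 2 := by
    intro θ hθ
    have hθ' := mem_Irr.mp (hΘ hθ)
    have h4 := B_irr hθ' hθ'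
    unfold B at h4
    rw [if_pos rfl] at h4
    rw [← Finset.mul_sum]
    have h5 : ∑ x : E, θ x * θ x⁻¹ = (Nat.card E : ℂ) := by
      field_simp at h4
      exact h4
    rw [h5, sq]
  rw [Finset.sum_congr rfl h3, Finset.sum_const, nsmul_eq_mul]
  ring

lemma ndz_card {H : Type} [Group H] [Fintype H] : numDefectZero p H = (dzf p H).card := by
  have e1 : {χ : H → ℂ // IsIrreducibleCharacter χ ∧
    ∃ n : ℕ, χ 1 = (n : ℂ) ∧ n.factorization p = (Nat.card H).factorization p} ≃
      {θ // θ ∈ dzf p H} := Equiv.subtypeEquivRight fun χ => (mem_dzf).symm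
  unfold numDefectZero
  rw [Nat.card_congr e1, Nat.card_eq_fintype_card, Fintype.card_coe]

variable {G : Subgroup E} [hG : G.Normal]

lemma inv_iff (hi : G.index = p) {e : E} (he : e ∉ G) {θ : G → ℂ} (hθ : IsClass θ) :
    (∀ x, θ (cjN G e x) = θ x) ↔ ∀ (y : E) (x : G), θ (cjN G y x) = θ x := by
  constructor
  · intro h
    have hcj := cj_sub G
    have hn : ∀ (n : ℕ) (x : G), θ (cjN G (e ^ n) x) = θ x := by
      intro n
      induction n with
      | zero =>
        intro x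
        rw [pow_zero, hcj.one]
      | succ n ih =>
        intro x
        rw [pow_succ, hcj.mul, ih, h]
    intro y x
    obtain ⟨k, hk⟩ := exists_pow hi he y
    obtain ⟨n, hn'⟩ : ∃ n : ℕ, e ^ k = e ^ n := by
      have h1 : e ^ k ∈ Submonoid.powers e := by
        rw [mem_powers_iff_mem_zpowers]
        exact Subgroup.zpow_mem _ (Subgroup.mem_zpowers e) k
      obtain ⟨n, hn'⟩ := Submonoid.mem_powers_iff _ _ |>.mp h1
      exact ⟨n, hn'.symm⟩
    rw [hn'] at hk
    have e1 : y = y * (e ^ n)⁻¹ * e ^ n := by group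
    rw [e1, hcj.mul]
    have e2 : cjN G (y * (e ^ n)⁻¹) (cjN G (e ^ n) x) =
        (⟨y * (e ^ n)⁻¹, hk⟩ : G) * cjN G (e ^ n) x * (⟨y * (e ^ n)⁻¹, hk⟩ : G)⁻¹ := rfl
    rw [e2, hθ, hn]
  · intro h x
    exact h e x

/-- **Characters of defect zero.** -/
theorem dz_index (hi : G.index = p) :
    Nat.card E * numDefectZero p E + Nat.card G * Nat.card {θ : G → ℂ // (IsIrrChar θ ∧ DZ p θ) ∧
      ∀ (y : E) (x : G), θ (cjN G y x) = θ x} = Nat.card G * numDefectZero p G := by
  have : Fintype G := Fintype.ofFinite _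
  have : Fintype (E ⧸ G) := Fintype.ofFinite _
  have hcj := cj_sub G
  have hr : G.subtype.range = G := Subgroup.range_subtype G
  have hn : G.subtype.range.Normal := by rw [hr]; infer_instance
  have hab : ∀ x y : E, x * y * x⁻¹ * y⁻¹ ∈ G.subtype.range := by
    rw [hr]
    exact comm_mem hi
  have hQ : Nat.card (E ⧸ G.subtype.range) = p := by
    have : Nat.card (E ⧸ G.subtype.range) = G.subtype.range.index := rfl
    rw [this, hr, hi]
  have hE := cardG_ne (G := E)
  have hGc := cardG_ne (G := G)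
  set F : E → E → ℂ := fun x y => push G.subtype (FT (nin p (cjN G))) (x * y * x⁻¹ * y⁻¹) with hF
  have hcl := push_class hcj (nin_stab (p := p) hcj)
  have h1 : ∀ x y, F x (y * x) = F x y := by
    intro x y
    simp only [hF]
    congr 1
    group
  have h2 : ∀ x y, F y x⁻¹ = F x y := by
    intro x y
    simp only [hF]
    rw [← hcl (y * x⁻¹ * y⁻¹ * x⁻¹⁻¹) x]
    congr 1
    group
  have h3 := total (G := G) hi h1 h2
  have hNF : ∀ e : E, NF G F 1 (e : E ⧸ G) = (Nat.card G : ℂ) ^ 2 *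
      (((nin p (cjN G)).filter (fun θ => ∀ x, θ (cjN G e x) = θ x)).card : ℂ) := by
    intro e
    rw [← sum_push_comm G nin_sub e]
    unfold NF
    refine Finset.sum_congr ?_ fun _ _ => rfl
    ext q
    rw [Finset.mem_filter, Finset.mem_filter, QuotientGroup.eq_one_iff, coset_iff]
  have h4 : NF G F 1 1 = (Nat.card G : ℂ) ^ 2 * ((nin p (cjN G)).card : ℂ) := by
    have h5 := hNF 1
    rw [QuotientGroup.mk_one] at h5
    rw [h5]
    congr 3
    rw [Finset.filter_eq_self]
    intro θ _ x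
    rw [hcj.one]
  have h5 : ∑ g ∈ (Finset.univ : Finset (E ⧸ G)).erase 1, NF G F 1 g = 0 := by
    refine Finset.sum_eq_zero fun g hg => ?_
    obtain ⟨e, rfl⟩ := QuotientGroup.mk_surjective g
    have he : e ∉ G := fun h => (Finset.mem_erase.mp hg).1 ((QuotientGroup.eq_one_iff e).mpr h)
    rw [hNF]
    have h6 : (nin p (cjN G)).filter (fun θ => ∀ x, θ (cjN G e x) = θ x) = ∅ := by
      rw [Finset.filter_eq_empty_iff]
      intro θ hθ h7
      have h8 := hθ
      unfold nin at h8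
      rw [Finset.mem_filter] at h8
      exact h8.2 ((inv_iff hi he (mem_Irr.mp (nin_sub hθ)).isClass).mp h7)
    rw [h6, Finset.card_empty, Nat.cast_zero, mul_zero]
  have hp1 : (p : ℂ) - 1 ≠ 0 := by
    have := hp.out.one_lt
    rw [sub_ne_zero]
    exact_mod_cast this.ne'
  rw [h4, h5, mul_zero, add_zero] at h3
  have h6 := mul_left_cancel₀ hp1 h3
  have h7 : (Nat.card E : ℂ) * ∑ q : E × E, F q.1 q.2 =
      (Nat.card G : ℂ) * ((Nat.card E : ℂ) ^ 2 * ((dzf p E).card : ℂ)) := by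
    rw [← sum_FT_comm dzf_sub, Finset.mul_sum, Finset.mul_sum]
    refine Finset.sum_congr rfl fun q _ => ?_
    simp only [hF]
    exact FT_eq' hcj hab hQ _
  rw [h6] at h7
  have h8 : (Nat.card G : ℂ) * ((nin p (cjN G)).card : ℂ) = (Nat.card E : ℂ) * ((dzf p E).card : ℂ) := by
    have h9 : ((Nat.card E : ℂ) * (Nat.card G : ℂ)) * ((Nat.card G : ℂ) * ((nin p (cjN G)).card : ℂ)) =
        ((Nat.card E : ℂ) * (Nat.card G : ℂ)) * ((Nat.card E : ℂ) * ((dzf p E).card : ℂ)) := by
      linear_combination h7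
    exact mul_left_cancel₀ (mul_ne_zero hE hGc) h9
  have h9 : Nat.card G * (nin p (cjN G)).card = Nat.card E * (dzf p E).card := by exact_mod_cast h8
  have h10 : Nat.card {θ : G → ℂ // (IsIrrChar θ ∧ DZ p θ) ∧
      ∀ (y : E) (x : G), θ (cjN G y x) = θ x} =
      ((dzf p G).filter (fun θ => ∀ (y : E) (x : G), θ (cjN G y x) = θ x)).card := by
    have e1 : {θ : G → ℂ // (IsIrrChar θ ∧ DZ p θ) ∧
        ∀ (y : E) (x : G), θ (cjN G y x) = θ x} ≃
        {θ // θ ∈ (dzf p G).filter (fun θ => ∀ (y : E) (x : G), θ (cjN G y x) = θ x)} :=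
      Equiv.subtypeEquivRight fun θ => by rw [Finset.mem_filter, mem_dzf]
    rw [Nat.card_congr e1, Nat.card_eq_fintype_card, Fintype.card_coe]
  rw [ndz_card, ndz_card, h10, ← h9, ← mul_add]
  congr 1
  unfold nin
  rw [add_comm]
  exact Finset.card_filter_add_card_filter_not _

/-- **The characters of defect zero of `E` and `G`.** -/
theorem dz_formula' (hi : G.index = p) :
    ((p : ℤ) - 1) * ((Nat.card E : ℤ) * (numDefectZero p E : ℤ)) =
      ((p : ℤ) - 1) * ((Nat.card G : ℤ) * (numDefectZero p G : ℤ)) -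
      ∑ u ∈ Finset.univ.filter (fun u : E => u ∉ G ∧ orderOf u = p),
        (Nat.card (CG G u) : ℤ) * (numDefectZero p (CG G u) : ℤ) := by
  have : Fintype (E ⧸ G) := Fintype.ofFinite _
  have : Fintype G := Fintype.ofFinite _
  have h1 := dz_index (p := p) hi
  set I := Nat.card {θ : G → ℂ // (IsIrrChar θ ∧ DZ p θ) ∧
      ∀ (y : E) (x : G), θ (cjN G y x) = θ x} with hI
  have hcard : Fintype.card (E ⧸ G) = p := by rw [← Nat.card_eq_fintype_card]; exact hi
  have hz : ∀ e : E, e ∉ G → zinv p G e = I := by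
    intro e he
    rw [zinv_card, hI]
    have e1 : {θ : G → ℂ // (IsIrrChar θ ∧ DZ p θ) ∧
        ∀ (y : E) (x : G), θ (cjN G y x) = θ x} ≃
        {θ // θ ∈ (dzf p G).filter (fun θ => ∀ x, θ (cjN G e x) = θ x)} :=
      Equiv.subtypeEquivRight fun θ => by
        rw [Finset.mem_filter, mem_dzf]
        exact and_congr_right fun h => (inv_iff hi he h.1.isClass).symm
    rw [Nat.card_congr e1, Nat.card_eq_fintype_card, Fintype.card_coe]
  have h2 := sum_cosets (p := p) hi (fun u => ((Nat.card (CG G u) : ℂ) * (numDefectZero p (CG G u) : ℂ)))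
  have h3 : ∀ g ∈ (Finset.univ : Finset (E ⧸ G)).erase 1,
      ∑ u ∈ Finset.univ.filter (fun u : E => (u : E ⧸ G) = g ∧ orderOf u = p),
        ((Nat.card (CG G u) : ℂ) * (numDefectZero p (CG G u) : ℂ)) = (Nat.card G : ℂ) * (I : ℂ) := by
    intro g hg
    obtain ⟨e, rfl⟩ := QuotientGroup.mk_surjective g
    have hg1 := (Finset.mem_erase.mp hg).1
    have he : e ∉ G := fun h => hg1 ((QuotientGroup.eq_one_iff e).mpr h)
    have h4 := dz_split (p := p) (G := G) (e := e) (a := 1) (by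
      rw [pow_one]; exact order_of_ne hi hg1)
    rw [hz e he, pow_one] at h4
    have h5 := congrArg (Nat.cast : ℕ → ℂ) h4
    push_cast at h5
    rw [h5]
    refine Finset.sum_congr ?_ fun _ _ => rfl
    ext u
    rw [Finset.mem_filter, Finset.mem_filter, coset_iff]
  rw [Finset.sum_congr rfl h3, Finset.sum_const, nsmul_eq_mul,
    Finset.card_erase_of_mem (Finset.mem_univ _), Finset.card_univ, hcard,
    Nat.cast_sub hp.out.one_lt.le, Nat.cast_one] at h2
  have h4 : ((p : ℤ) - 1) * ((Nat.card G : ℤ) * (I : ℤ)) =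
      ∑ u ∈ Finset.univ.filter (fun u : E => u ∉ G ∧ orderOf u = p),
        (Nat.card (CG G u) : ℤ) * (numDefectZero p (CG G u) : ℤ) := by exact_mod_cast h2
  rw [← h4]
  have h5 : (Nat.card E : ℤ) * (numDefectZero p E : ℤ) + (Nat.card G : ℤ) * (I : ℤ) =
      (Nat.card G : ℤ) * (numDefectZero p G : ℤ) := by exact_mod_cast h1
  linear_combination ((p : ℤ) - 1) * h5

/-- **Main theorem**, normal subgroups of index `p` -/
theorem index_formula (hi : G.index = p) :
    ((p : ℤ) - 1) * ((Nat.card E : ℤ) * fl p E) = ((p : ℤ) - 1) * ((Nat.card G : ℤ) * fl p G) -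
      ∑ u ∈ Finset.univ.filter (fun u : E => u ∉ G ∧ orderOf u = p),
        (Nat.card (CG G u) : ℤ) * fl p (CG G u) := by
  have h1 := TA_formula (p := p) (G := G) hi
  have h2 := dz_formula' (p := p) (G := G) hi
  unfold TA at h1
  unfold fl
  have e1 : ∑ u ∈ Finset.univ.filter (fun u : E => u ∉ G ∧ orderOf u = p),
      (Nat.card (CG G u) : ℤ) * (alternatingSum p (CG G u)
        (fun K => (Nat.card (ConjClasses K) : ℤ)) - (numDefectZero p (CG G u) : ℤ)) =
      ∑ u ∈ Finset.univ.filter (fun u : E => u ∉ G ∧ orderOf u = p),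
        (Nat.card (CG G u) : ℤ) * alternatingSum p (CG G u)
          (fun K => (Nat.card (ConjClasses K) : ℤ)) -
      ∑ u ∈ Finset.univ.filter (fun u : E => u ∉ G ∧ orderOf u = p),
        (Nat.card (CG G u) : ℤ) * (numDefectZero p (CG G u) : ℤ) := by
    rw [← Finset.sum_sub_distrib]
    exact Finset.sum_congr rfl fun u _ => by ring
  rw [e1]
  linear_combination h1 - h2

end

end Pool.Agent.Q100.PX
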